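import Pool.Agent.Helper52.CK.Om
import Pool.Agent.Helper69.EK3.Univ
import Pool.Agent.Helper39.EK.E1a

/-!
# CK: Lipschitz bounds in the depth for the densities and the means
-/

set_option autoImplicit false
open Complex MeasureTheory Metric Set Filter Topology
open scoped Real ComplexConjugate

namespace Pool.Agent.Helper77.CK

open Pool.Agent.Helper39.Area Pool.Agent.Helper52.EK Pool.Agent.Helper52.CK

theorem ep_ne (t θ : ℝ) : ep t θ ≠ 0 := by
  unfold ep
  exact Complex.exp_ne_zero _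

theorem differentiableOn_N {β : ℂ → ℂ} (h : Ext β) : DifferentiableOn ℂ (N β) (ball 0 1) := by
  have h1 : DifferentiableOn ℂ (deriv β) (ball 0 1) := h.diff.deriv isOpen_ball
  intro z hz
  have h2 := h1.differentiableAt (isOpen_ball.mem_nhds hz)
  unfold N
  exact ((differentiableAt_const _).sub ((differentiableAt_id.pow 2).mul h2)).differentiableWithinAt

/-- the classical bound for the second derivative -/
theorem logN {β : ℂ → ℂ} (h : Ext β) {z : ℂ} (h0 : z ≠ 0) (hz : ‖z‖ < 1) (h2 : 1 - ‖z‖ ≤ ‖z‖) :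
    ‖z * (deriv (N β) z / N β z)‖ * (1 - ‖z‖) ≤ 4 * ‖z‖ + 2 * (1 - ‖z‖) := by
  have hr : 0 < 1 - ‖z‖ := by linarith
  have hm : ∀ u ∈ ball (0:ℂ) (1 - ‖z‖), z + u ∈ ball (0:ℂ) 1 ∧ z + u ≠ 0 := by
    intro u hu
    rw [mem_ball_zero_iff] at hu
    constructor
    · rw [mem_ball_zero_iff]
      exact (norm_add_le _ _).trans_lt (by linarith)
    · intro h3
      have : ‖z‖ = ‖u‖ := by
        rw [← norm_neg u]
        congr 1
        linear_combination h3
      linarith
  have hdat : ∀ u ∈ ball (0:ℂ) (1 - ‖z‖), HasDerivAt (fun u => phi β (z + u))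
      (dphi β (z + u)) u := by
    intro u hu
    have h4 := hasDerivAt_phi h.diff (hm u hu).1 (hm u hu).2
    have h5 : HasDerivAt (fun u : ℂ => z + u) 1 u := (hasDerivAt_id u).const_add z
    have h6 := h4.comp u h5
    rw [mul_one] at h6
    exact h6
  have h4 := Pool.Agent.Helper69.EK3.bieb_r (g := fun u => phi β (z + u)) hr
    (fun u hu => (hdat u hu).differentiableAt.differentiableWithinAt) ?_
  · have h5 : deriv (fun u => phi β (z + u)) 0 = dphi β z := by
      rw [(hdat 0 (mem_ball_self hr)).deriv, add_zero]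
    have hzb : z ∈ ball (0:ℂ) 1 := mem_ball_zero_iff.2 hz
    have hN : N β z ≠ 0 := h.ne z hzb
    have hNd : DifferentiableAt ℂ (N β) z :=
      (differentiableOn_N h).differentiableAt (isOpen_ball.mem_nhds hzb)
    have h6 : deriv (deriv (fun u => phi β (z + u))) 0 = deriv (dphi β) z := by
      have h7 : deriv (fun u => phi β (z + u)) =ᶠ[𝓝 0] fun u => dphi β (z + u) := by
        filter_upwards [isOpen_ball.mem_nhds (mem_ball_self hr)] with u hu
        exact (hdat u hu).deriv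
      rw [h7.deriv_eq, deriv_comp_const_add, add_zero]
    have h7 : deriv (dphi β) z = -(deriv (N β) z / z ^ 2) + 2 * N β z / z ^ 3 := by
      have h8 : dphi β =ᶠ[𝓝 z] fun w => -(N β w / w ^ 2) := by
        filter_upwards [isOpen_ne.mem_nhds h0] with w hw
        have hw' : w ≠ 0 := hw
        unfold dphi N
        field_simp
        ring
      rw [h8.deriv_eq]
      have h9 : HasDerivAt (fun w => -(N β w / w ^ 2))
          (-((deriv (N β) z * z ^ 2 - N β z * (2 * z)) / (z ^ 2) ^ 2)) z := by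
        have h10 : HasDerivAt (fun w : ℂ => w ^ 2) (2 * z) z := by
          have := hasDerivAt_pow 2 z
          simpa using this
        exact (hNd.hasDerivAt.div h10 (pow_ne_zero 2 h0)).neg
      rw [h9.deriv]
      field_simp
      ring
    have h8 : dphi β z = -(N β z / z ^ 2) := by
      unfold dphi N
      field_simp
      ring
    rw [h5, h6] at h4
    have h9 : z * (deriv (N β) z / N β z) = z * (deriv (dphi β) z / dphi β z) + 2 := by
      rw [h7, h8]
      field_simp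
      ring
    have h10 : 0 < ‖dphi β z‖ := by
      rw [norm_pos_iff, h8, neg_ne_zero]
      exact div_ne_zero hN (pow_ne_zero 2 h0)
    have h11 : ‖deriv (dphi β) z / dphi β z‖ * (1 - ‖z‖) ≤ 4 := by
      rw [norm_div, div_mul_eq_mul_div, div_le_iff₀ h10]
      exact h4
    calc ‖z * (deriv (N β) z / N β z)‖ * (1 - ‖z‖)
        ≤ (‖z‖ * ‖deriv (dphi β) z / dphi β z‖ + 2) * (1 - ‖z‖) := by
          rw [h9]
          refine mul_le_mul_of_nonneg_right ?_ hr.le
          refine (norm_add_le _ _).trans ?_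
          rw [norm_mul]
          norm_num
      _ ≤ 4 * ‖z‖ + 2 * (1 - ‖z‖) := by
          nlinarith [norm_nonneg z]
  · intro u hu v hv huv
    have h6 := h.inj (z + u) (z + v) (hm u hu).1 (hm v hv).1 (hm u hu).2 (hm v hv).2 huv
    linear_combination h6

/-- (1) uniform bound of the logarithmic derivative -/
theorem lip_N : ∃ C : ℝ, 0 ≤ C ∧ ∀ (β : ℂ → ℂ) (R x θ : ℝ), ExtR β R → 0 < x → x ≤ 1 / 4 →
    x * ‖ep (-x) θ * (deriv (N β) (ep (-x) θ) / N β (ep (-x) θ))‖ ≤ C := by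
  refine ⟨6, by norm_num, ?_⟩
  intro β R x θ h hx hx1
  have h1 : Real.exp (-x) < 1 := by
    rw [Real.exp_lt_one_iff]
    linarith
  have h2 : 1 - x ≤ Real.exp (-x) := by
    have := Real.add_one_le_exp (-x)
    linarith
  have h3 : Real.exp (-x) ≤ 1 - 3 / 4 * x := by
    have h4 := Real.abs_exp_sub_one_sub_id_le (x := -x) (by rw [abs_neg, abs_of_pos hx]; linarith)
    have h5 := (abs_le.mp h4).2
    nlinarith
  have h4 := logN h.toExt (ep_ne (-x) θ) (by rw [norm_ep]; exact h1)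
    (by rw [norm_ep]; linarith)
  rw [norm_ep] at h4
  set D := ‖ep (-x) θ * (deriv (N β) (ep (-x) θ) / N β (ep (-x) θ))‖ with hD
  have hD0 : 0 ≤ D := norm_nonneg _
  have h5 : 3 / 4 * x ≤ 1 - Real.exp (-x) := by linarith
  have h6 : D * (3 / 4 * x) ≤ D * (1 - Real.exp (-x)) := mul_le_mul_of_nonneg_left h5 hD0
  nlinarith

theorem hasDerivAt_logN {β : ℂ → ℂ} (h : Ext β) (θ : ℝ) (l : ℝ) :
    HasDerivAt (fun l : ℝ => Real.log ‖N β (ep (-Real.exp (-l)) θ)‖)
      (Real.exp (-l) * (ep (-Real.exp (-l)) θ *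
        (deriv (N β) (ep (-Real.exp (-l)) θ) / N β (ep (-Real.exp (-l)) θ))).re) l := by
  have hz : ep (-Real.exp (-l)) θ ∈ ball (0:ℂ) 1 := by
    rw [mem_ball_zero_iff, norm_ep, Real.exp_lt_one_iff]
    linarith [Real.exp_pos (-l)]
  have hNd := (differentiableOn_N h).differentiableAt (isOpen_ball.mem_nhds hz)
  have hN : N β (ep (-Real.exp (-l)) θ) ≠ 0 := h.ne _ hz
  have h1 : HasDerivAt (fun l : ℝ => Real.exp (-l)) (-Real.exp (-l)) l := by
    have h0 := (hasDerivAt_neg l).exp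
    rw [mul_neg_one] at h0
    exact h0
  have h2 : HasDerivAt (fun l : ℝ => ((-Real.exp (-l) : ℝ) : ℂ) + (θ : ℂ) * I)
      ((Real.exp (-l) : ℝ) : ℂ) l := by
    have h3 := h1.neg.ofReal_comp.add_const ((θ : ℂ) * I)
    simpa using h3
  have h3 : HasDerivAt (fun l : ℝ => ep (-Real.exp (-l)) θ)
      (ep (-Real.exp (-l)) θ * ((Real.exp (-l) : ℝ) : ℂ)) l := by
    unfold ep
    exact h2.cexp
  have h4 : HasDerivAt (fun l : ℝ => N β (ep (-Real.exp (-l)) θ))
      (deriv (N β) (ep (-Real.exp (-l)) θ) * (ep (-Real.exp (-l)) θ * ((Real.exp (-l) : ℝ) : ℂ)))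
      l := hNd.hasDerivAt.comp_of_eq l h3 rfl
  have h5 : HasDerivAt (fun l : ℝ => Complex.normSq (N β (ep (-Real.exp (-l)) θ)))
      (2 * ((deriv (N β) (ep (-Real.exp (-l)) θ) *
        (ep (-Real.exp (-l)) θ * ((Real.exp (-l) : ℝ) : ℂ))) *
        conj (N β (ep (-Real.exp (-l)) θ))).re) l := by
    have h6 : ∀ w : ℂ, Complex.normSq w = w.re * w.re + w.im * w.im := fun w => rfl
    have h7 := (Complex.reCLM.hasFDerivAt.comp_hasDerivAt l h4)
    have h8 := (Complex.imCLM.hasFDerivAt.comp_hasDerivAt l h4)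
    have h9 := (h7.mul h7).add (h8.mul h8)
    refine h9.congr_deriv ?_
    simp only [Function.comp_apply, Complex.reCLM_apply, Complex.imCLM_apply, Complex.mul_re,
      Complex.conj_re, Complex.conj_im, Complex.mul_im]
    ring
  have h6 : ∀ l : ℝ, Real.log ‖N β (ep (-Real.exp (-l)) θ)‖ =
      1 / 2 * Real.log (Complex.normSq (N β (ep (-Real.exp (-l)) θ))) := by
    intro l
    rw [Complex.normSq_eq_norm_sq, Real.log_pow]
    push_cast
    ring
  have h7 : Complex.normSq (N β (ep (-Real.exp (-l)) θ)) ≠ 0 := by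
    rw [Ne, Complex.normSq_eq_zero]
    exact hN
  have h8 := (h5.log h7).const_mul (1 / 2)
  have h9 : (fun l : ℝ => Real.log ‖N β (ep (-Real.exp (-l)) θ)‖) = fun l : ℝ =>
      1 / 2 * Real.log (Complex.normSq (N β (ep (-Real.exp (-l)) θ))) := funext h6
  rw [h9]
  refine h8.congr_deriv ?_
  set A := ep (-Real.exp (-l)) θ
  set x := Real.exp (-l)
  have h10 : (A * (deriv (N β) A / N β A)).re =
      ((deriv (N β) A * A) * conj (N β A)).re / Complex.normSq (N β A) := by
    have h11 : A * (deriv (N β) A / N β A) =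
        (deriv (N β) A * A) * conj (N β A) / ((Complex.normSq (N β A) : ℝ) : ℂ) := by
      rw [Complex.normSq_eq_conj_mul_self]
      have hc : conj (N β A) ≠ 0 := by
        rw [Ne, map_eq_zero]
        exact hN
      field_simp
    rw [h11, Complex.div_ofReal_re]
  have h11 : ((deriv (N β) A * (A * (x : ℂ))) * conj (N β A)).re =
      x * ((deriv (N β) A * A) * conj (N β A)).re := by
    have h12 : (deriv (N β) A * (A * (x : ℂ))) * conj (N β A) =
        (x : ℂ) * ((deriv (N β) A * A) * conj (N β A)) := by ring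
    rw [h12, Complex.re_ofReal_mul]
  rw [h10, h11]
  field_simp

theorem exp_neg_two_le : Real.exp (-2) ≤ 1 / 4 := by
  have h1 : (2:ℝ) ≤ Real.exp 1 := by
    have := Real.add_one_le_exp (1:ℝ)
    linarith
  have h2 : (4:ℝ) ≤ Real.exp 2 := by
    have h3 : Real.exp 2 = Real.exp 1 * Real.exp 1 := by
      rw [← Real.exp_add]
      norm_num
    rw [h3]
    nlinarith
  rw [Real.exp_neg]
  rw [show (1:ℝ) / 4 = (4:ℝ)⁻¹ by norm_num]
  exact inv_anti₀ (by norm_num) h2

/-- `log |N|` is Lipschitz in the depth -/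
theorem logN_lip {C : ℝ} (hC : ∀ (β : ℂ → ℂ) (R x θ : ℝ), ExtR β R → 0 < x → x ≤ 1 / 4 →
    x * ‖ep (-x) θ * (deriv (N β) (ep (-x) θ) / N β (ep (-x) θ))‖ ≤ C)
    {β : ℂ → ℂ} {R : ℝ} (h : ExtR β R) (θ : ℝ) {l l' : ℝ} (hl : 2 ≤ l) (hl' : 2 ≤ l') :
    |Real.log ‖N β (ep (-Real.exp (-l)) θ)‖ - Real.log ‖N β (ep (-Real.exp (-l')) θ)‖| ≤
      C * |l - l'| := by
  have h1 := (convex_Ici (2:ℝ)).norm_image_sub_le_of_norm_hasDerivWithin_le
    (f := fun l : ℝ => Real.log ‖N β (ep (-Real.exp (-l)) θ)‖) (C := C)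
    (fun l _ => (hasDerivAt_logN h.toExt θ l).hasDerivWithinAt) ?_ (mem_Ici.2 hl') (mem_Ici.2 hl)
  · rw [Real.norm_eq_abs, Real.norm_eq_abs] at h1
    exact h1
  · intro l hl
    rw [mem_Ici] at hl
    have h2 : Real.exp (-l) ≤ 1 / 4 := (Real.exp_le_exp.2 (by linarith)).trans exp_neg_two_le
    have h3 := hC β R (Real.exp (-l)) θ h (Real.exp_pos _) h2
    refine le_trans ?_ h3
    rw [norm_mul, Real.norm_eq_abs, abs_of_pos (Real.exp_pos _), Real.norm_eq_abs]
    exact mul_le_mul_of_nonneg_left (Complex.abs_re_le_norm _) (Real.exp_pos _).le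

theorem contFF {κ : ℝ} {β : ℂ → ℂ} (h : Ext β) {x : ℝ} (hx : 0 < x) :
    Continuous fun θ : ℝ => FF κ β x θ := by
  unfold FF
  have hz : ∀ θ : ℝ, ep (-x) θ ∈ ball (0:ℂ) 1 := by
    intro θ
    rw [mem_ball_zero_iff, norm_ep, Real.exp_lt_one_iff]
    linarith
  have h1 : Continuous fun θ : ℝ => ep (-x) θ := by
    unfold ep
    fun_prop
  have h2 : Continuous fun θ : ℝ => N β (ep (-x) θ) :=
    (differentiableOn_N h).continuousOn.comp_continuous h1 hz
  refine h2.norm.rpow_const fun θ => Or.inl ?_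
  rw [norm_ne_zero_iff]
  exact h.ne _ (hz θ)

theorem posFF {κ : ℝ} {β : ℂ → ℂ} (h : Ext β) {x : ℝ} (hx : 0 < x) (θ : ℝ) :
    0 < FF κ β x θ := by
  unfold FF
  apply Real.rpow_pos_of_pos
  rw [norm_pos_iff]
  refine h.ne _ ?_
  rw [mem_ball_zero_iff, norm_ep, Real.exp_lt_one_iff]
  linarith

/-- pointwise form -/
theorem lip {κ : ℝ} (hκ : 0 ≤ κ) : LipStmt κ := by
  obtain ⟨C, hC0, hC⟩ := lip_N
  have hc0 : 0 < 1 - Real.exp (-Real.exp (-2)) ^ 2 := by
    have h2 : Real.exp (-Real.exp (-2)) < 1 := by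
      rw [Real.exp_lt_one_iff]
      linarith [Real.exp_pos (-2)]
    nlinarith [Real.exp_pos (-Real.exp (-2))]
  have hN0 : ∀ (β : ℂ → ℂ), Ext β → ∀ x θ : ℝ, 0 < x → 0 < ‖N β (ep (-x) θ)‖ := by
    intro β h x θ hx
    rw [norm_pos_iff]
    refine h.ne _ ?_
    rw [mem_ball_zero_iff, norm_ep, Real.exp_lt_one_iff]
    linarith
  refine ⟨max (κ * C) (Real.log ((1 - Real.exp (-Real.exp (-2)) ^ 2) ^ (-κ))),
    (mul_nonneg hκ hC0).trans (le_max_left _ _), ?_⟩
  intro β R h
  refine ⟨?_, ?_⟩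
  · intro l l' θ hl hl'
    unfold FF
    have h4 := hN0 β h.toExt (Real.exp (-l)) θ (Real.exp_pos _)
    have h5 := hN0 β h.toExt (Real.exp (-l')) θ (Real.exp_pos _)
    rw [Real.rpow_def_of_pos h4, Real.rpow_def_of_pos h5, ← Real.exp_add]
    apply Real.exp_le_exp.2
    have h6 := logN_lip hC h θ hl hl'
    have h7 := (abs_le.mp h6).1
    have h8 : κ * C * |l - l'| ≤
        max (κ * C) (Real.log ((1 - Real.exp (-Real.exp (-2)) ^ 2) ^ (-κ))) * |l - l'| :=
      mul_le_mul_of_nonneg_right (le_max_left _ _) (abs_nonneg _)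
    have h9 : κ * (Real.log ‖N β (ep (-Real.exp (-l')) θ)‖ -
        Real.log ‖N β (ep (-Real.exp (-l)) θ)‖) ≤ κ * (C * |l - l'|) :=
      mul_le_mul_of_nonneg_left (by linarith) hκ
    nlinarith
  · intro θ
    unfold FF
    have h3 : ‖ep (-Real.exp (-2)) θ‖ < 1 := by
      rw [norm_ep, Real.exp_lt_one_iff]
      linarith [Real.exp_pos (-2)]
    have h4 := Pool.Agent.Helper39.EK.N_ge h.toExt h3
    rw [norm_ep] at h4
    have h5 := Real.rpow_le_rpow_of_nonpos hc0 h4 (by linarith : -κ ≤ 0)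
    refine h5.trans ?_
    rw [← Real.log_le_iff_le_exp (Real.rpow_pos_of_pos hc0 _)]
    exact le_max_right _ _

/-- (2) the means: positivity, Lipschitz bound in the depth, bound at depth 2 -/
theorem mm_lip {κ : ℝ} (hκ : 0 ≤ κ) {u : ℝ → ℝ} (hu : Continuous u) (hu0 : ∀ θ, 0 ≤ u θ)
    (hup : Function.Periodic u (2 * π)) (hu1 : ∃ θ, 0 < u θ) :
    ∃ A : ℝ, 0 ≤ A ∧ ∀ (β : ℂ → ℂ) (R : ℝ), ExtR β R →
      (∀ l l' : ℝ, 2 ≤ l → 2 ≤ l' →
        |Real.log (mm κ u β l) - Real.log (mm κ u β l')| ≤ A * |l - l'|) ∧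
      Real.log (mm κ u β 2) ≤ A ∧ ∀ l : ℝ, 0 < mm κ u β l := by
  obtain ⟨C, hC0, hC⟩ := lip_N
  have hpi : 0 < 2 * π := by positivity
  have hint : ∀ (β : ℂ → ℂ), Ext β → ∀ l : ℝ,
      Continuous fun θ : ℝ => u θ * FF κ β (Real.exp (-l)) θ := fun β h l =>
    hu.mul (contFF h (Real.exp_pos _))
  obtain ⟨θ1, h1, h1'⟩ : ∃ θ ∈ Icc (-π) π, 0 < u θ := by
    obtain ⟨θ0, h0⟩ := hu1
    obtain ⟨y, hy, hy'⟩ := hup.exists_mem_Ico hpi θ0 (-π)
    refine ⟨y, ⟨hy.1, ?_⟩, hy' ▸ h0⟩
    have := hy.2.le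
    linarith
  have hpos : ∀ (β : ℂ → ℂ), Ext β → ∀ l : ℝ, 0 < mm κ u β l := by
    intro β h l
    unfold mm
    refine mul_pos (inv_pos.2 hpi) ?_
    refine intervalIntegral.integral_pos (by linarith [Real.pi_pos]) (hint β h l).continuousOn
      (fun θ _ => mul_nonneg (hu0 θ) (posFF h (Real.exp_pos _) θ).le)
      ⟨θ1, h1, mul_pos h1' (posFF h (Real.exp_pos _) θ1)⟩
  obtain ⟨U, hU⟩ : ∃ U : ℝ, ∀ θ ∈ Icc (-π) π, u θ ≤ U := by
    obtain ⟨θ0, -, h0⟩ := isCompact_Icc.exists_isMaxOn (nonempty_Icc.2 (by linarith [Real.pi_pos]))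
      (hu.continuousOn (s := Icc (-π) π))
    exact ⟨u θ0, fun θ hθ => h0 hθ⟩
  have hUpos : 0 < U := h1'.trans_le (hU θ1 h1)
  have hc0 : 0 < 1 - Real.exp (-Real.exp (-2)) ^ 2 := by
    have h2 : Real.exp (-Real.exp (-2)) < 1 := by
      rw [Real.exp_lt_one_iff]
      linarith [Real.exp_pos (-2)]
    nlinarith [Real.exp_pos (-Real.exp (-2))]
  set c := 1 - Real.exp (-Real.exp (-2)) ^ 2 with hc
  have hone : ∀ (β : ℂ → ℂ) (R : ℝ), ExtR β R → ∀ l l' : ℝ, 2 ≤ l → 2 ≤ l' →
      Real.log (mm κ u β l) ≤ Real.log (mm κ u β l') + κ * C * |l - l'| := by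
    intro β R h l l' hl hl'
    have h2 : mm κ u β l ≤ Real.exp (κ * C * |l - l'|) * mm κ u β l' := by
      unfold mm
      rw [← mul_assoc, mul_comm (Real.exp _), mul_assoc]
      refine mul_le_mul_of_nonneg_left ?_ (inv_pos.2 hpi).le
      rw [← intervalIntegral.integral_const_mul]
      refine intervalIntegral.integral_mono_on (by linarith [Real.pi_pos])
        ((hint β h.toExt l).intervalIntegrable _ _)
        (((hint β h.toExt l').const_mul _).intervalIntegrable _ _) ?_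
      intro θ _
      have h3 : FF κ β (Real.exp (-l)) θ ≤
          Real.exp (κ * C * |l - l'|) * FF κ β (Real.exp (-l')) θ := by
        unfold FF
        have h4 : 0 < ‖N β (ep (-Real.exp (-l)) θ)‖ := by
          rw [norm_pos_iff]
          refine h.toExt.ne _ ?_
          rw [mem_ball_zero_iff, norm_ep, Real.exp_lt_one_iff]
          linarith [Real.exp_pos (-l)]
        have h5 : 0 < ‖N β (ep (-Real.exp (-l')) θ)‖ := by
          rw [norm_pos_iff]
          refine h.toExt.ne _ ?_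
          rw [mem_ball_zero_iff, norm_ep, Real.exp_lt_one_iff]
          linarith [Real.exp_pos (-l')]
        rw [Real.rpow_def_of_pos h4, Real.rpow_def_of_pos h5, ← Real.exp_add]
        apply Real.exp_le_exp.2
        have h6 := logN_lip hC h θ hl hl'
        have h7 := (abs_le.mp h6).1
        nlinarith
      calc u θ * FF κ β (Real.exp (-l)) θ
          ≤ u θ * (Real.exp (κ * C * |l - l'|) * FF κ β (Real.exp (-l')) θ) :=
            mul_le_mul_of_nonneg_left h3 (hu0 θ)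
        _ = Real.exp (κ * C * |l - l'|) * (u θ * FF κ β (Real.exp (-l')) θ) := by ring
    have h3 := Real.log_le_log (hpos β h.toExt l) h2
    rw [Real.log_mul (Real.exp_ne_zero _) (hpos β h.toExt l').ne', Real.log_exp] at h3
    linarith
  refine ⟨max (κ * C) (max 0 (Real.log (U * c ^ (-κ)))), ?_, ?_⟩
  · exact (le_max_left _ _).trans (le_max_right _ _)
  intro β R h
  refine ⟨?_, ?_, hpos β h.toExt⟩
  · intro l l' hl hl'
    have h2 := hone β R h l l' hl hl'
    have h3 := hone β R h l' l hl' hl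
    rw [abs_sub_comm l' l] at h3
    have h4 : κ * C * |l - l'| ≤ max (κ * C) (max 0 (Real.log (U * c ^ (-κ)))) * |l - l'| :=
      mul_le_mul_of_nonneg_right (le_max_left _ _) (abs_nonneg _)
    rw [abs_le]
    constructor <;> linarith
  · refine le_trans ?_ ((le_max_right _ _).trans (le_max_right _ _))
    refine Real.log_le_log (hpos β h.toExt 2) ?_
    have h2 : ∀ θ ∈ Icc (-π) π, u θ * FF κ β (Real.exp (-2)) θ ≤ U * c ^ (-κ) := by
      intro θ hθ
      refine mul_le_mul (hU θ hθ) ?_ (posFF h.toExt (Real.exp_pos _) θ).le hUpos.le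
      unfold FF
      have h3 : ‖ep (-Real.exp (-2)) θ‖ < 1 := by
        rw [norm_ep, Real.exp_lt_one_iff]
        linarith [Real.exp_pos (-2)]
      have h4 := Pool.Agent.Helper39.EK.N_ge h.toExt h3
      rw [norm_ep] at h4
      exact Real.rpow_le_rpow_of_nonpos hc0 h4 (by linarith)
    have h3 : ∫ θ in (-π)..π, u θ * FF κ β (Real.exp (-2)) θ ≤ ∫ _ in (-π)..π, U * c ^ (-κ) :=
      intervalIntegral.integral_mono_on (by linarith [Real.pi_pos])
        ((hint β h.toExt 2).intervalIntegrable _ _) intervalIntegrable_const h2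
    rw [intervalIntegral.integral_const, smul_eq_mul] at h3
    unfold mm
    rw [inv_mul_le_iff₀ hpi]
    linarith

end Pool.Agent.Helper77.CK
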