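import Pool.Agent.Helper77.CK.PT
import Pool.Agent.Helper73.CK.Cut

/-!
# CK: PT from the bound for the target on the real axis
-/

set_option autoImplicit false
open Complex MeasureTheory Metric Set Filter Topology
open scoped Real ComplexConjugate

namespace Pool.Agent.Helper77.CK

open Pool.Agent.Helper39.Area Pool.Agent.Helper52.EK Pool.Agent.Helper52.CK
open Pool.Agent.Helper69.CK (MOk Mh Mt)

/-- **PT** -/
theorem pt {κ dl : ℝ} (hκ : 0 ≤ κ) (hdl : 0 ≤ dl) {G M M' : ℂ → ℂ} {L Mb Lm ε₀ : ℝ}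
    (hG : GLip G L) (hM : MOk M M' Mb Lm ε₀) (hε₀ : 0 < ε₀)
    (hK : KOneStmt κ dl G M (1 + dl / (2 * κ))) : PTStmt κ dl G (Mh M') :=
  pt_of hκ hdl hG hM hε₀ hK Pool.Agent.Helper73.CK.cut

end Pool.Agent.Helper77.CK
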