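import Pool.Agent.Helper84.CK.KOneWd
import Pool.Agent.Helper63.CK.CutArea
import Pool.Agent.Helper69.CK.Conv
import Pool.Agent.Helper69.CK.Rot

/-!
# CK: the inequality for one target from its four parts
-/

set_option autoImplicit false
open Complex MeasureTheory Metric Set Filter Topology
open scoped Real ComplexConjugate

namespace Pool.Agent.Helper77.CK

open Pool.Agent.Helper39.Area Pool.Agent.Helper52.EK Pool.Agent.Helper52.CK
open Pool.Agent.Helper84.CK (WtF)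
open Pool.Agent.Helper69.CK (MOk Mh Mt)
open Pool.Agent.Helper9.EK (rotβ)

/-- the bound for the target on the real axis, with a weight -/
def KOneStmt (κ dc : ℝ) (G M : ℂ → ℂ) (q : ℝ) : Prop :=
  ∃ e C V₀ a₀ : ℝ, 0 < e ∧ 0 ≤ C ∧ 0 < V₀ ∧ a₀ < 1 ∧
    ∀ (β : ℂ → ℂ) (R a V : ℝ) (Ω Ω₁ Ω₂ : ℝ → ℝ → ℝ), ExtR β R → a₀ < a → a < 1 →
    0 ≤ V → V ≤ V₀ → WtF (Real.log (tau a) + 1) (-1) V Ω Ω₁ Ω₂ →
    Kf (wf G β) 1 (-1) (Real.log a) +
        e * II (Real.log (tau a) + 1) (-1) (fun ξ η => ‖Xf β a (pt ξ η) - 1‖ ^ 2) ≤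
      κ * Real.log (‖N β a‖ / (1 - a ^ 2)) +
        π⁻¹ * II (Real.log (tau a) + 1) (-1) (fun ξ η => Ω ξ η * Mt M q (Xf β a) ξ η) +
        4 * π⁻¹ * II (Real.log (tau a) + 1) (-1) (fun ξ η => 1 - Ω ξ η) +
        dc * (-1 - (Real.log (tau a) + 1)) +
        C * (1 + V * (-1 - (Real.log (tau a) + 1)))

/-- the cut-off functions -/
def CutStmt : Prop :=
  ∃ C₀ : ℝ, 0 ≤ C₀ ∧ ∀ K ε A : ℝ, 0 < K → 0 < ε → ∃ s C n₀ : ℝ, 0 < s ∧ s ≤ 1 / 2 ∧ 0 ≤ C ∧
    ∀ n : ℝ, n₀ ≤ n → ∃ W0 : ℂ → ℝ, Cutf (Real.exp (-n)) W0 ∧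
      ∀ x θ : ℝ, 0 < x → x ≤ Real.exp (-n) → |θ| ≤ s →
        (∃ W₁ W₂ : ℝ → ℝ → ℝ, WtF (Real.log (tau (Real.exp (-x))) + 1) (-1) K
          (fun ξ η => W0 (Complex.exp (θ * I) * zf (pt ξ η))) W₁ W₂) ∧
        (∀ z : ℂ, W0 (Complex.exp (θ * I) * z) ≠ 0 → ‖z‖ < 1 ∧
          Real.exp (Real.log (tau (Real.exp (-x))) + 1) < ‖1 - z‖ / ‖1 + z‖ ∧
          ‖1 - z‖ / ‖1 + z‖ ≤ Real.exp (-A)) ∧
        II (Real.log (tau (Real.exp (-x))) + 1) (-1)
            (fun ξ η => 1 - W0 (Complex.exp (θ * I) * zf (pt ξ η))) ≤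
          ε * (-Real.log x) + C + C₀ * (-Real.log x - n)

/-- the length of the strip -/
theorem len_le {x : ℝ} (hx : 0 < x) (hx1 : x ≤ 1) :
    -1 - (Real.log (tau (Real.exp (-x))) + 1) ≤ -Real.log x := by
  have h1 := Pool.Agent.Helper63.CK.tau_ge hx hx1
  have h2 : Real.log (x / 4) ≤ Real.log (tau (Real.exp (-x))) :=
    Real.log_le_log (by positivity) h1
  rw [Real.log_div hx.ne' (by norm_num)] at h2
  have h3 : Real.log 4 ≤ 2 := by
    have h4 : Real.log 4 = 2 * Real.log 2 := by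
      rw [show (4:ℝ) = 2 ^ 2 by norm_num, Real.log_pow]
      norm_num
    have h5 := Real.log_two_lt_d9
    linarith
  linarith

theorem tau_far' {x : ℝ} (hx : 0 < x) (hx1 : x ≤ Real.exp (-2)) :
    Real.log (tau (Real.exp (-x))) + 1 ≤ -1 := by
  have h1 := Pool.Agent.Helper63.CK.tau_le hx hx1
  have h2 : 0 < tau (Real.exp (-x)) := by
    have := Pool.Agent.Helper63.CK.tau_ge hx (hx1.trans (by
      rw [Real.exp_le_one_iff]
      norm_num))
    linarith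
  have h3 := Real.log_le_log h2 h1
  rw [Real.log_exp] at h3
  linarith

theorem exp_m2 : Real.exp (-2) ≤ 1 / 4 := by
  have h1 : Real.exp (-2) = Real.exp (-1) * Real.exp (-1) := by
    rw [← Real.exp_add]
    norm_num
  have h2 : Real.exp (-1) < 0.3678794412 := Real.exp_neg_one_lt_d9
  have h3 := Real.exp_pos (-1)
  rw [h1]
  nlinarith

/-- the crude bound -/
theorem crude {G : ℂ → ℂ} {L : ℝ} (hG : GLip G L) : ∃ C : ℝ, 0 ≤ C ∧
    ∀ (β : ℂ → ℂ) (R x : ℝ), ExtR β R → 0 < x → x ≤ Real.exp (-2) →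
      Kf (wf G β) 1 (-1) (-x) ≤ 4 * (-Real.log x) + C := by
  have hG2 := Pool.Agent.Helper84.CK.GLip.two hG
  obtain ⟨C, hC⟩ := Pool.Agent.Helper69.EK7.E3F hG2 1 le_rfl
  refine ⟨|C|, abs_nonneg C, ?_⟩
  intro β R x hβ hx hx1
  have hx2 : x ≤ 1 / 4 := hx1.trans exp_m2
  have ha1 : Real.exp (-x) < 1 := by
    rw [Real.exp_lt_one_iff]
    linarith
  have ha : Real.exp (-1) < Real.exp (-x) := Real.exp_lt_exp.2 (by linarith)
  have hfar := tau_far' hx hx1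
  have h1 := hC β R (Real.exp (-x)) hβ ha ha1 hfar
  rw [Real.log_exp] at h1
  have h1' : Kf (wf G β) 1 (-1) (-x) ≤ π⁻¹ * II (Real.log (tau (Real.exp (-x))) + 1) (-1)
      (Pool.Agent.Helper69.EK7.T2 (fun m _ => G m) (Xf β (Real.exp (-x)))) + C := h1
  have hlen := len_le hx (by linarith : x ≤ 1)
  obtain ⟨x₁, hx₁⟩ : ∃ x₁, x₁ = Real.log (tau (Real.exp (-x))) + 1 := ⟨_, rfl⟩
  rw [← hx₁] at h1' hlen hfar
  have hxt : Real.log (tau (Real.exp (-x))) < x₁ := by linarith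
  have hX : NiceX (Xf β (Real.exp (-x))) x₁ (-1) :=
    Pool.Agent.Helper67.EK.E1c hβ (Real.exp_pos _) ha1 hxt (by norm_num)
  have hT : II x₁ (-1) (Pool.Agent.Helper69.EK7.T2 (fun m _ => G m) (Xf β (Real.exp (-x)))) ≤
      II x₁ (-1) (fun _ _ => 4) := by
    refine Pool.Agent.Helper44.EK.II_mono hfar ?_ ?_ ?_
    · exact Pool.Agent.Helper69.EK7.F3_contOn hG2 hX
    · exact continuousOn_const
    · intro ξ _ η _
      exact Pool.Agent.Helper84.CK.T2_le4 hG2 _ ξ η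
  have h4 : II x₁ (-1) (fun _ _ => (4:ℝ)) = 4 * π * (-1 - x₁) := by
    unfold II
    simp only [intervalIntegral.integral_const, smul_eq_mul]
    ring
  rw [h4] at hT
  have hpi := Real.pi_pos
  have h5 := mul_le_mul_of_nonneg_left hT (inv_pos.2 hpi).le
  have h6 : π⁻¹ * (4 * π * (-1 - x₁)) = 4 * (-1 - x₁) := by
    field_simp
  rw [h6] at h5
  have h7 := le_abs_self C
  linarith

/-- `log (|N|/(1 - |z|²)) ≥ 0` -/
theorem log_nonneg' {β : ℂ → ℂ} (h : Ext β) {x θ : ℝ} (hx : 0 < x) :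
    0 ≤ Real.log (‖N β (ep (-x) θ)‖ / (1 - Real.exp (-2 * x))) := by
  have h1 : ‖ep (-x) θ‖ = Real.exp (-x) := by
    unfold ep
    rw [Complex.norm_exp]
    simp
  have h2 : Real.exp (-x) < 1 := by
    rw [Real.exp_lt_one_iff]
    linarith
  have h3 := Pool.Agent.Helper39.EK.N_ge h (z := ep (-x) θ) (by rw [h1]; exact h2)
  have h4 : Real.exp (-2 * x) = ‖ep (-x) θ‖ ^ 2 := by
    rw [h1, ← Real.exp_nat_mul]
    congr 1
    push_cast
    ring
  rw [← h4] at h3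
  have h5 : 0 < 1 - Real.exp (-2 * x) := by
    rw [h4, h1]
    nlinarith [Real.exp_pos (-x)]
  apply Real.log_nonneg
  rw [le_div_iff₀ h5]
  linarith

/-- **PT from its parts** -/
theorem pt_of {κ dl : ℝ} (hκ : 0 ≤ κ) (hdl : 0 ≤ dl) {G M M' : ℂ → ℂ} {L Mb Lm ε₀ : ℝ}
    (hG : GLip G L) (hM : MOk M M' Mb Lm ε₀) (hε₀ : 0 < ε₀)
    (hK : KOneStmt κ dl G M (1 + dl / (2 * κ))) (hcut : CutStmt) :
    PTStmt κ dl G (Mh M') := by
  obtain ⟨e, C₁, V₀, a₀, he, hC₁, hV₀, ha₀, hK⟩ := hK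
  obtain ⟨Cc, hCc, hconv⟩ := Pool.Agent.Helper69.CK.conv hM (1 + dl / (2 * κ))
  obtain ⟨Ck, hCk, hcut⟩ := hcut
  obtain ⟨Cr, hCr, hcr⟩ := crude hG
  have hpi := Real.pi_pos
  have hpi3 := Real.pi_gt_three
  have hpii : 0 < π⁻¹ := inv_pos.2 hpi
  refine ⟨4 * π⁻¹ * Ck + 4, by positivity, ?_⟩
  intro ε hε
  obtain ⟨V, hV⟩ : ∃ V, V = min V₀ (ε / (2 * (C₁ + 1))) := ⟨_, rfl⟩
  have hVpos : 0 < V := by
    rw [hV]
    exact lt_min hV₀ (by positivity)
  have hVV : V ≤ V₀ := by rw [hV]; exact min_le_left _ _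
  have hCV : C₁ * V ≤ ε / 2 := by
    have h1 : V ≤ ε / (2 * (C₁ + 1)) := by rw [hV]; exact min_le_right _ _
    have h2 : V * (2 * (C₁ + 1)) ≤ ε := by
      rwa [le_div_iff₀ (by positivity)] at h1
    nlinarith
  -- the depth of the upper cut
  obtain ⟨A, hA⟩ : ∃ A : ℝ, 8 * Real.exp (-A) ≤ 1 ∧ 184 * Real.exp (-A) ≤ ε₀ ∧
      π⁻¹ * Cc * Real.exp (-A) ≤ e := by
    have h1 : 0 < min (1 / 8) (min (ε₀ / 184) (e / (π⁻¹ * Cc + 1))) := by positivity
    refine ⟨-Real.log (min (1 / 8) (min (ε₀ / 184) (e / (π⁻¹ * Cc + 1)))), ?_⟩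
    rw [neg_neg, Real.exp_log h1]
    have m1 := min_le_left (1 / 8 : ℝ) (min (ε₀ / 184) (e / (π⁻¹ * Cc + 1)))
    have m2 := (min_le_right (1 / 8 : ℝ) (min (ε₀ / 184) (e / (π⁻¹ * Cc + 1)))).trans
      (min_le_left _ _)
    have m3 := (min_le_right (1 / 8 : ℝ) (min (ε₀ / 184) (e / (π⁻¹ * Cc + 1)))).trans
      (min_le_right _ _)
    refine ⟨by linarith, ?_, ?_⟩
    · rw [le_div_iff₀ (by norm_num)] at m2
      linarith
    · have h2 : 0 < π⁻¹ * Cc + 1 := by positivity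
      rw [le_div_iff₀ h2] at m3
      nlinarith
  obtain ⟨hA1, hA2, hA3⟩ := hA
  obtain ⟨s, C₂, n₀, hs, hs1, hC₂, hcut⟩ := hcut V (ε * π / 8) A hVpos (by positivity)
  -- the first depth
  obtain ⟨n₁, hn₁⟩ : ∃ n₁ : ℝ, ∀ x : ℝ, x ≤ Real.exp (-n₁) → a₀ < Real.exp (-x) := by
    refine ⟨-Real.log (1 - a₀) + 1, ?_⟩
    intro x hx
    have h1 : Real.exp (-(-Real.log (1 - a₀) + 1)) = (1 - a₀) * Real.exp (-1) := by
      rw [neg_add, neg_neg, Real.exp_add, Real.exp_log (by linarith)]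
    rw [h1] at hx
    have h2 : Real.exp (-1) < 1 := by
      rw [Real.exp_lt_one_iff]
      norm_num
    have h3 := Real.add_one_le_exp (-x)
    nlinarith
  obtain ⟨n₂, hn₂⟩ : ∃ n₂, n₂ = max n₀ n₁ := ⟨_, rfl⟩
  refine ⟨s, (Cr + 4 * |n₂|) + (π⁻¹ * Cc + 4 * π⁻¹ * C₂ + C₁), hs, hs1, by positivity, ?_⟩
  intro n hn
  by_cases hnn : n₂ ≤ n
  · obtain ⟨W0, hW0, hcut⟩ := hcut n ((le_max_left _ _).trans (hn₂ ▸ hnn))
    refine ⟨W0, hW0, ?_⟩
    intro β R hβ x θ hx hxn hθ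
    obtain ⟨⟨W₁, W₂, hWt⟩, hsupp, harea⟩ := hcut x θ hx hxn hθ
    have hx2 : x ≤ Real.exp (-2) := hxn.trans (Real.exp_le_exp.2 (by linarith))
    have hx4 : x ≤ 1 / 4 := hx2.trans exp_m2
    have ha1 : Real.exp (-x) < 1 := by
      rw [Real.exp_lt_one_iff]
      linarith
    have ha0 : a₀ < Real.exp (-x) := hn₁ x (hxn.trans (Real.exp_le_exp.2 (by
      have := (le_max_right n₀ n₁).trans (hn₂ ▸ hnn)
      linarith)))
    have hfar := tau_far' hx hx2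
    have hlen := len_le hx (by linarith : x ≤ 1)
    have hβ' := Pool.Agent.Helper9.EK.rot_ExtR hβ θ
    have k1 := hK (rotβ β θ) R (Real.exp (-x)) V _ W₁ W₂ hβ' ha0 ha1 hVpos.le hVV hWt
    have k2 := hconv (rotβ β θ) R (Real.exp (-x)) A (Real.log (tau (Real.exp (-x))) + 1)
      (fun z => W0 (Complex.exp (θ * I) * z)) hβ' (Real.exp_pos _) ha1 (by linarith) hfar hA1 hA2
      (hW0.cont.comp (continuous_const.mul continuous_id)) (fun z => hW0.nn _)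
      (fun z => hW0.le1 _) hsupp
    rw [Real.log_exp, ← Pool.Agent.Helper9.EK.rot_Kf'] at k1
    have e1 : N (rotβ β θ) ((Real.exp (-x) : ℝ) : ℂ) = N β (ep (-x) θ) := by
      rw [Pool.Agent.Helper9.EK.rot_N', Pool.Agent.Helper69.CK.ep_eq]
    have e2 : Real.exp (-x) ^ 2 = Real.exp (-2 * x) := by
      rw [← Real.exp_nat_mul]
      congr 1
      push_cast
      ring
    rw [e1, e2] at k1
    have e3 := Pool.Agent.Helper69.CK.MM_rot κ dl W0 M' β x θ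
    set E := II (Real.log (tau (Real.exp (-x))) + 1) (-1)
      (fun ξ η => ‖Xf (rotβ β θ) (Real.exp (-x)) (pt ξ η) - 1‖ ^ 2) with hE
    set J := ∫ z : ℂ, W0 (Complex.exp (θ * I) * z) * (Mh M' (rotβ β θ) z *
      (kA (rotβ β θ) ((Real.exp (-x) : ℝ) : ℂ) z -
        ((1 + dl / (2 * κ) : ℝ) : ℂ) * omp 0 z ^ 2)).re with hJ
    have hE0 : 0 ≤ E := Pool.Agent.Helper83.EK.II_nonneg hfar (fun ξ η => by positivity)
    have k3 := (abs_le.mp k2).2
    have k4 := mul_le_mul_of_nonneg_left k3 hpii.le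
    rw [e3]
    have k5 : π⁻¹ * Cc * Real.exp (-A) * E ≤ e * E := mul_le_mul_of_nonneg_right hA3 hE0
    have k6 := mul_le_mul_of_nonneg_left harea (by positivity : 0 ≤ 4 * π⁻¹)
    have k7 : 4 * π⁻¹ * (ε * π / 8 * (-Real.log x) + C₂ + Ck * (-Real.log x - n)) =
        ε / 2 * (-Real.log x) + 4 * π⁻¹ * C₂ + 4 * π⁻¹ * Ck * (-Real.log x - n) := by
      field_simp
      ring
    rw [k7] at k6
    have k8 : dl * (-1 - (Real.log (tau (Real.exp (-x))) + 1)) ≤ dl * (-Real.log x) :=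
      mul_le_mul_of_nonneg_left hlen hdl
    have hl0 : 0 ≤ -Real.log x := by
      rw [neg_nonneg]
      exact Real.log_nonpos hx.le (by linarith)
    have k9 : C₁ * (1 + V * (-1 - (Real.log (tau (Real.exp (-x))) + 1))) ≤
        C₁ + ε / 2 * (-Real.log x) := by
      have q1 : C₁ * V * (-1 - (Real.log (tau (Real.exp (-x))) + 1)) ≤ C₁ * V * (-Real.log x) :=
        mul_le_mul_of_nonneg_left hlen (by positivity)
      have q2 : C₁ * V * (-Real.log x) ≤ ε / 2 * (-Real.log x) :=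
        mul_le_mul_of_nonneg_right hCV hl0
      have q3 : C₁ * (1 + V * (-1 - (Real.log (tau (Real.exp (-x))) + 1))) =
          C₁ + C₁ * V * (-1 - (Real.log (tau (Real.exp (-x))) + 1)) := by ring
      linarith
    have hln : n ≤ -Real.log x := by
      have := Real.log_le_log hx hxn
      rw [Real.log_exp] at this
      linarith
    have k10 : 0 ≤ 4 * (-Real.log x - n) := by linarith
    have k11 : 0 ≤ Cr + 4 * |n₂| := by positivity
    linarith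
  · push Not at hnn
    refine ⟨fun _ => 0, ⟨continuous_const, fun _ => le_rfl, fun _ => zero_le_one,
      fun z h => absurd rfl h⟩, ?_⟩
    intro β R hβ x θ hx hxn _
    have hx2 : x ≤ Real.exp (-2) := hxn.trans (Real.exp_le_exp.2 (by linarith))
    have hx4 : x ≤ 1 / 4 := hx2.trans exp_m2
    have hβ' := Pool.Agent.Helper9.EK.rot_ExtR hβ θ
    have k1 := hcr (rotβ β θ) R x hβ' hx hx2
    rw [← Pool.Agent.Helper9.EK.rot_Kf'] at k1
    have k2 := log_nonneg' hβ.toExt (x := x) (θ := θ) hx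
    have k3 : MM κ dl (fun _ => 0) (Mh M' β) β x θ = 0 := by
      unfold MM
      simp
    have k4 := mul_nonneg hκ k2
    have hl0 : 0 ≤ -Real.log x := by
      rw [neg_nonneg]
      exact Real.log_nonpos hx.le (by linarith)
    have k5 : 0 ≤ (dl + ε) * (-Real.log x) := by positivity
    have hln : n ≤ -Real.log x := by
      have := Real.log_le_log hx hxn
      rw [Real.log_exp] at this
      linarith
    have k6 : 0 ≤ 4 * π⁻¹ * Ck * (-Real.log x - n) := mul_nonneg (by positivity) (by linarith)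
    have k7 : 0 ≤ π⁻¹ * Cc + 4 * π⁻¹ * C₂ + C₁ := by positivity
    have k8 : 4 * n ≤ 4 * |n₂| := by
      have := le_abs_self n₂
      linarith
    rw [k3]
    have k9 : (4 * π⁻¹ * Ck + 4) * (-Real.log x - n) =
        4 * π⁻¹ * Ck * (-Real.log x - n) + 4 * (-Real.log x) - 4 * n := by ring
    rw [k9]
    linarith

end Pool.Agent.Helper77.CK
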