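import Pool.Agent.Helper77.CK.TwoPoint
import Pool.Agent.Helper5.CK.Defs
import Pool.Agent.Helper84.EK.Koebe

/-!
# CK: uniform bounds in the class `Ext`
-/

set_option autoImplicit false
open Complex Metric Set Filter Topology
open scoped ComplexConjugate

namespace Pool.Agent.Helper77.CK

open Pool.Agent.Helper39.Area

variable {β : ℂ → ℂ}

/-- bounds for `ψ'(1/z) = 1 - z^2 β'(z)` -/
theorem N_bounds (h : Ext β) {z : ℂ} (hz : ‖z‖ < 1) :
    1 - ‖z‖ ^ 2 ≤ ‖1 - z ^ 2 * deriv β z‖ ∧ ‖1 - z ^ 2 * deriv β z‖ ≤ 1 / (1 - ‖z‖ ^ 2) := by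
  by_cases h0 : z = 0
  · subst h0
    simp
  · have h1 := qq_ge h h0 h0 hz le_rfl le_rfl
    have h2 : qq β z z = 1 - z ^ 2 * deriv β z := by
      unfold qq
      rw [dslope_same]
      ring
    rwa [h2] at h1

theorem dphi_eq {z : ℂ} (h0 : z ≠ 0) : dphi β z = -(1 - z ^ 2 * deriv β z) / z ^ 2 := by
  unfold dphi
  field_simp
  ring

/-- (a) bounds for `φ'` -/
theorem dphi_bounds (h : Ext β) {η : ℝ} (hη : 0 < η) {z : ℂ} (h1 : η ≤ ‖z‖) (h2 : ‖z‖ ≤ 1 - η) :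
    η ≤ ‖dphi β z‖ ∧ ‖dphi β z‖ ≤ (η ^ 3)⁻¹ := by
  have hz0 : 0 < ‖z‖ := hη.trans_le h1
  have h0 : z ≠ 0 := norm_pos_iff.mp hz0
  have hz1 : ‖z‖ < 1 := by linarith
  obtain ⟨h3, h4⟩ := N_bounds h hz1
  have h5 : ‖z‖ ^ 2 ≤ 1 := by nlinarith
  have h6 : 0 < ‖z‖ ^ 2 := by positivity
  have h7 : η ≤ 1 - ‖z‖ ^ 2 := by nlinarith
  rw [dphi_eq h0, norm_div, norm_neg, norm_pow]
  constructor
  · rw [le_div_iff₀ h6]
    nlinarith
  · rw [div_le_iff₀ h6]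
    have h8 : 1 / (1 - ‖z‖ ^ 2) ≤ 1 / η := one_div_le_one_div_of_le hη h7
    have h9 : η ^ 2 ≤ ‖z‖ ^ 2 := pow_le_pow_left₀ hη.le h1 2
    calc ‖1 - z ^ 2 * deriv β z‖ ≤ 1 / η := h4.trans h8
      _ = (η ^ 3)⁻¹ * η ^ 2 := by field_simp
      _ ≤ (η ^ 3)⁻¹ * ‖z‖ ^ 2 := by gcongr

/-- (b) Koebe's lower bound -/
theorem koebe_phi (h : Ext β) {p y : ℂ} {r : ℝ} (hr : 0 < r) (h1 : r ≤ ‖p‖) (h2 : r ≤ 1 - ‖p‖)
    (hy : y ∈ ball (0:ℂ) 1) (hy0 : y ≠ 0) (h3 : r ≤ ‖y - p‖) :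
    r * ‖dphi β p‖ ≤ 4 * ‖phi β y - phi β p‖ := by
  have hp1 : ‖p‖ < 1 := by linarith
  have hp0 : p ≠ 0 := norm_pos_iff.mp (hr.trans_le h1)
  have hm : ∀ u ∈ ball (0:ℂ) r, p + u ∈ ball (0:ℂ) 1 ∧ p + u ≠ 0 := by
    intro u hu
    rw [mem_ball_zero_iff] at hu
    constructor
    · rw [mem_ball_zero_iff]
      exact (norm_add_le _ _).trans_lt (by linarith)
    · intro h0
      have : ‖p‖ = ‖u‖ := by
        rw [← norm_neg u]
        congr 1
        linear_combination h0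
      linarith
  have hdat : ∀ u ∈ ball (0:ℂ) r, HasDerivAt (fun u => phi β (p + u) - phi β y)
      (dphi β (p + u)) u := by
    intro u hu
    have h4 := hasDerivAt_phi h.diff (hm u hu).1 (hm u hu).2
    have h5 : HasDerivAt (fun u : ℂ => p + u) 1 u := (hasDerivAt_id u).const_add p
    have h6 := h4.comp u h5
    rw [mul_one] at h6
    exact h6.sub_const _
  have h4 := Pool.Agent.Helper84.EK.koebe_r (g := fun u => phi β (p + u) - phi β y) hr
    (fun u hu => (hdat u hu).differentiableAt.differentiableWithinAt) ?_ ?_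
  · rw [(hdat 0 (mem_ball_self hr)).deriv, add_zero] at h4
    rw [norm_sub_rev (phi β y), mul_comm]
    exact h4
  · intro u hu v hv huv
    have h5 : phi β (p + u) = phi β (p + v) := by
      have h6 : phi β (p + u) - phi β y = phi β (p + v) - phi β y := huv
      linear_combination h6
    have h6 := h.inj (p + u) (p + v) (hm u hu).1 (hm v hv).1 (hm u hu).2 (hm v hv).2 h5
    linear_combination h6
  · intro u hu h0
    have h5 : phi β (p + u) = phi β y := sub_eq_zero.mp h0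
    have h6 := h.inj (p + u) y (hm u hu).1 hy (hm u hu).2 hy0 h5
    rw [← h6, add_sub_cancel_left] at h3
    rw [mem_ball_zero_iff] at hu
    linarith

/-- bound for `β'` -/
theorem dbeta_le (h : Ext β) {s : ℝ} (hs : 1 / 2 ≤ s) (hs1 : s < 1) {z : ℂ} (hz : ‖z‖ ≤ s) :
    ‖deriv β z‖ ≤ 4 * (1 + 1 / (1 - s ^ 2)) := by
  have hs0 : 0 < s := by linarith
  have hd : DifferentiableOn ℂ (deriv β) (ball 0 1) := h.diff.deriv isOpen_ball
  have hcl : closure (ball (0:ℂ) s) ⊆ ball 0 1 := by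
    rw [closure_ball _ hs0.ne']
    exact closedBall_subset_ball hs1
  have h1 : DiffContOnCl ℂ (deriv β) (ball 0 s) := (hd.mono hcl).diffContOnCl
  have hs2 : 0 < 1 - s ^ 2 := by nlinarith
  refine Complex.norm_le_of_forall_mem_frontier_norm_le isBounded_ball h1 ?_ ?_
  · intro w hw
    rw [frontier_ball _ hs0.ne', mem_sphere_zero_iff_norm] at hw
    have hw1 : ‖w‖ < 1 := by rw [hw]; exact hs1
    have h2 := (N_bounds h hw1).2
    rw [hw] at h2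
    have h3 : ‖w ^ 2 * deriv β w‖ ≤ 1 + 1 / (1 - s ^ 2) := by
      have h4 : w ^ 2 * deriv β w = 1 - (1 - w ^ 2 * deriv β w) := by ring
      rw [h4]
      refine (norm_sub_le _ _).trans ?_
      rw [norm_one]
      linarith
    rw [norm_mul, norm_pow, hw] at h3
    have h5 : (1:ℝ) / 4 ≤ s ^ 2 := by nlinarith
    nlinarith [norm_nonneg (deriv β w)]
  · rw [closure_ball _ hs0.ne', mem_closedBall_zero_iff]
    exact hz

/-- (c) bound for `β` -/
theorem beta_le (h : Ext β) (h0 : β 0 = 0) {s : ℝ} (hs : 1 / 2 ≤ s) (hs1 : s < 1) {z : ℂ}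
    (hz : ‖z‖ ≤ s) : ‖β z‖ ≤ 4 * (1 + 1 / (1 - s ^ 2)) := by
  have hs0 : 0 < s := by linarith
  have hs2 : 0 < 1 - s ^ 2 := by nlinarith
  have h1 : ∀ w ∈ closedBall (0:ℂ) s, DifferentiableAt ℂ β w := fun w hw =>
    h.diff.differentiableAt (isOpen_ball.mem_nhds (closedBall_subset_ball hs1 hw))
  have h2 : ∀ w ∈ closedBall (0:ℂ) s, ‖deriv β w‖ ≤ 4 * (1 + 1 / (1 - s ^ 2)) := fun w hw =>
    dbeta_le h hs hs1 (by simpa using hw)
  have h3 := (convex_closedBall (0:ℂ) s).norm_image_sub_le_of_norm_deriv_le h1 h2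
    (mem_closedBall_self hs0.le) (mem_closedBall_zero_iff.2 hz)
  rw [h0, sub_zero, sub_zero] at h3
  refine h3.trans ?_
  have h4 : 0 ≤ 4 * (1 + 1 / (1 - s ^ 2)) := by positivity
  nlinarith

/-- (c) uniform form -/
theorem exists_beta_le {η : ℝ} (hη : 0 < η) : ∃ C : ℝ, 0 < C ∧ ∀ β : ℂ → ℂ, Ext β → β 0 = 0 →
    ∀ z : ℂ, ‖z‖ ≤ 1 - η → ‖β z‖ ≤ C ∧ ‖deriv β z‖ ≤ C := by
  have h1 : 0 < min η (1 / 2) := lt_min hη (by norm_num)
  have h2 : 1 / 2 ≤ 1 - min η (1 / 2) := by linarith [min_le_right η (1 / 2)]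
  have h3 : 1 - min η (1 / 2) < 1 := by linarith
  have h4 : 0 < 1 - (1 - min η (1 / 2)) ^ 2 := by nlinarith
  refine ⟨4 * (1 + 1 / (1 - (1 - min η (1 / 2)) ^ 2)), by positivity, ?_⟩
  intro β h h0 z hz
  have h5 : ‖z‖ ≤ 1 - min η (1 / 2) := hz.trans (by linarith [min_le_left η (1 / 2)])
  exact ⟨beta_le h h0 h2 h3 h5, dbeta_le h h2 h3 h5⟩

end Pool.Agent.Helper77.CK
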