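import Pool.Agent.Helper77.CK.Class

/-!
# CK: first order expansion of `W (φ (ψ z))`
-/

set_option autoImplicit false
open Complex Metric Set Filter Topology
open scoped ComplexConjugate

namespace Pool.Agent.Helper77.CK

open Pool.Agent.Helper39.Area Pool.Agent.Helper5.CK

variable {β : ℂ → ℂ}

/-- bound for the vector field -/
theorem hh_le {η s : ℝ} (hη : 0 < η) (hs : 0 < s) {p τ z : ℂ} (hp : ‖p‖ ≤ 1 - η) (hz : ‖z‖ ≤ 1)
    (hzp : s ≤ ‖z - p‖) : ‖hh p τ z‖ ≤ (1 / s + 1 / η) * ‖τ‖ := by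
  have hp0 := norm_nonneg p
  have hz0 := norm_nonneg z
  have h1 : ‖(z + p) / (z - p)‖ ≤ 2 / s := by
    rw [norm_div]
    have h2 : ‖z + p‖ ≤ 2 := (norm_add_le _ _).trans (by linarith)
    exact div_le_div₀ (by norm_num) h2 hs hzp
  have h3 : ‖conj p * z‖ ≤ 1 - η := by
    rw [norm_mul, RCLike.norm_conj]
    nlinarith
  have h4 : η ≤ ‖1 - conj p * z‖ := by
    have h5 : ‖(1:ℂ)‖ - ‖conj p * z‖ ≤ ‖1 - conj p * z‖ := norm_sub_norm_le _ _
    rw [norm_one] at h5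
    linarith
  have h6 : ‖(1 + conj p * z) / (1 - conj p * z)‖ ≤ 2 / η := by
    rw [norm_div]
    have h2 : ‖1 + conj p * z‖ ≤ 2 := (norm_add_le _ _).trans (by rw [norm_one]; linarith)
    exact div_le_div₀ (by norm_num) h2 hη h4
  unfold hh
  rw [norm_mul]
  have h7 : ‖τ * ((z + p) / (z - p)) - conj τ * ((1 + conj p * z) / (1 - conj p * z))‖ ≤
      ‖τ‖ * (2 / s) + ‖τ‖ * (2 / η) := by
    refine (norm_sub_le _ _).trans (add_le_add ?_ ?_)
    · rw [norm_mul]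
      exact mul_le_mul_of_nonneg_left h1 (norm_nonneg _)
    · rw [norm_mul, RCLike.norm_conj]
      exact mul_le_mul_of_nonneg_left h6 (norm_nonneg _)
  have h8 : ‖(1 / 2 : ℂ)‖ = 1 / 2 := by simp
  rw [h8]
  calc 1 / 2 * ‖τ * ((z + p) / (z - p)) - conj τ * ((1 + conj p * z) / (1 - conj p * z))‖ ≤
      1 / 2 * (‖τ‖ * (2 / s) + ‖τ‖ * (2 / η)) := by gcongr
    _ = _ := by ring

/-- second order Taylor bound for `φ` -/
theorem taylor_phi (h : Ext β) {η : ℝ} (hη : 0 < η) {z w : ℂ} (h1 : η ≤ ‖z‖) (h2 : ‖z‖ ≤ 1 - η)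
    (hw : ‖w - z‖ ≤ η / 2) :
    ‖phi β w - phi β z - dphi β z * (w - z)‖ ≤ 256 / η ^ 4 * ‖w - z‖ ^ 2 ∧
      ‖phi β w - phi β z‖ ≤ 64 / η ^ 3 * ‖w - z‖ := by
  have hη4 : 0 < η / 4 := by linarith
  have hη2 : 0 < η / 2 := by linarith
  -- the annulus of size `η / 4`
  have hb : ∀ v : ℂ, ‖v - z‖ ≤ 3 * η / 4 → ‖dphi β v‖ ≤ 64 / η ^ 3 ∧ v ∈ ball (0:ℂ) 1 ∧ v ≠ 0 := by
    intro v hv
    have h3 : ‖v‖ ≤ ‖z‖ + ‖v - z‖ := by
      calc ‖v‖ = ‖z + (v - z)‖ := by congr 1; ring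
        _ ≤ _ := norm_add_le _ _
    have h4 : ‖z‖ ≤ ‖v‖ + ‖v - z‖ := by
      calc ‖z‖ = ‖v - (v - z)‖ := by congr 1; ring
        _ ≤ _ := norm_sub_le _ _
    have h5 := (dphi_bounds h hη4 (z := v) (by linarith) (by linarith)).2
    refine ⟨h5.trans (le_of_eq ?_), ?_, ?_⟩
    · field_simp
      norm_num
    · rw [mem_ball_zero_iff]
      linarith
    · intro h0
      have h6 : ‖v‖ = 0 := by rw [h0, norm_zero]
      linarith
  have hU : ∀ v ∈ ball z (3 * η / 4), HasDerivAt (phi β) (dphi β v) v := by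
    intro v hv
    rw [mem_ball_iff_norm] at hv
    exact hasDerivAt_phi h.diff (hb v hv.le).2.1 (hb v hv.le).2.2
  have hphid : DifferentiableOn ℂ (phi β) (ball z (3 * η / 4)) := fun v hv =>
    (hU v hv).differentiableAt.differentiableWithinAt
  have hdd : DifferentiableOn ℂ (dphi β) (ball z (3 * η / 4)) := by
    have h3 : DifferentiableOn ℂ (deriv (phi β)) (ball z (3 * η / 4)) := hphid.deriv isOpen_ball
    apply h3.congr
    intro v hv
    exact (hU v hv).deriv.symm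
  -- second derivative
  have hsec : ∀ v ∈ closedBall z (η / 2), ‖deriv (dphi β) v‖ ≤ 256 / η ^ 4 := by
    intro v hv
    rw [mem_closedBall_iff_norm] at hv
    -- a slightly smaller circle
    have h3 : ∀ r : ℝ, 0 < r → r < η / 4 → ‖deriv (dphi β) v‖ ≤ 64 / η ^ 3 / r := by
      intro r hr hr4
      have h4 : closure (ball v r) ⊆ ball z (3 * η / 4) := by
        rw [closure_ball _ hr.ne']
        intro u hu
        rw [mem_closedBall_iff_norm] at hu
        rw [mem_ball_iff_norm]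
        calc ‖u - z‖ = ‖(u - v) + (v - z)‖ := by congr 1; ring
          _ ≤ ‖u - v‖ + ‖v - z‖ := norm_add_le _ _
          _ < _ := by linarith
      apply Complex.norm_deriv_le_of_forall_mem_sphere_norm_le hr (hdd.mono h4).diffContOnCl
      intro u hu
      rw [mem_sphere_iff_norm] at hu
      apply (hb u _).1
      calc ‖u - z‖ = ‖(u - v) + (v - z)‖ := by congr 1; ring
        _ ≤ ‖u - v‖ + ‖v - z‖ := norm_add_le _ _
        _ ≤ _ := by linarith
    have h5 : ContinuousAt (fun r : ℝ => 64 / η ^ 3 / r) (η / 4) :=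
      continuousAt_const.div continuousAt_id hη4.ne'
    have h6 : Tendsto (fun r : ℝ => 64 / η ^ 3 / r) (𝓝[<] (η / 4)) (𝓝 (64 / η ^ 3 / (η / 4))) :=
      h5.tendsto.mono_left nhdsWithin_le_nhds
    have h7 : ‖deriv (dphi β) v‖ ≤ 64 / η ^ 3 / (η / 4) := by
      apply ge_of_tendsto h6
      filter_upwards [Ioo_mem_nhdsLT hη4] with r hr
      exact h3 r hr.1 hr.2
    refine h7.trans (le_of_eq ?_)
    field_simp
    norm_num
  have hsub : closedBall z (η / 2) ⊆ ball z (3 * η / 4) := closedBall_subset_ball (by linarith)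
  have hzc : z ∈ closedBall z (η / 2) := mem_closedBall_self hη2.le
  have hwc : w ∈ closedBall z (η / 2) := mem_closedBall_iff_norm.2 hw
  have hlip : ∀ v ∈ closedBall z (η / 2), ‖dphi β v - dphi β z‖ ≤ 256 / η ^ 4 * ‖v - z‖ := by
    intro v hv
    exact (convex_closedBall z (η / 2)).norm_image_sub_le_of_norm_deriv_le
      (fun u hu => hdd.differentiableAt (isOpen_ball.mem_nhds (hsub hu))) hsec hzc hv
  constructor
  · have h8 : ∀ u ∈ closedBall z ‖w - z‖, HasDerivWithinAt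
        (fun u => phi β u - dphi β z * u) (dphi β u - dphi β z) (closedBall z ‖w - z‖) u := by
      intro u hu
      have h9 : u ∈ ball z (3 * η / 4) := hsub (closedBall_subset_closedBall hw hu)
      have h10 := (hU u h9).sub ((hasDerivAt_id u).const_mul (dphi β z))
      rw [mul_one] at h10
      exact h10.hasDerivWithinAt
    have h9 : ∀ u ∈ closedBall z ‖w - z‖, ‖dphi β u - dphi β z‖ ≤ 256 / η ^ 4 * ‖w - z‖ := by
      intro u hu
      have h10 := hlip u (closedBall_subset_closedBall hw hu)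
      rw [mem_closedBall_iff_norm] at hu
      exact h10.trans (by gcongr)
    have h10 := (convex_closedBall z ‖w - z‖).norm_image_sub_le_of_norm_hasDerivWithin_le h8 h9
      (mem_closedBall_self (norm_nonneg _)) (mem_closedBall_iff_norm.2 le_rfl)
    have e : phi β w - phi β z - dphi β z * (w - z) =
        phi β w - dphi β z * w - (phi β z - dphi β z * z) := by ring
    rw [e]
    refine h10.trans (le_of_eq ?_)
    ring
  · exact (convex_closedBall z (η / 2)).norm_image_sub_le_of_norm_hasDerivWithin_le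
      (fun u hu => (hU u (hsub hu)).hasDerivWithinAt)
      (fun u hu => (hb u ((mem_closedBall_iff_norm.1 hu).trans (by linarith))).1) hzc hwc

/-- (V6) the expansion -/
theorem expand (η s : ℝ) (hη : 0 < η) (hs : 0 < s) : ∃ C : ℝ, 0 < C ∧ ∀ β : ℂ → ℂ, Ext β →
    ∀ p : ℂ, η ≤ ‖p‖ → ‖p‖ ≤ 1 - η → ∀ τ : ℂ, C * ‖τ‖ ≤ 1 →
    ∀ z : ℂ, η ≤ ‖z‖ → ‖z‖ ≤ 1 - η → s ≤ ‖z - p‖ →
      C⁻¹ ≤ ‖phi β (psi p τ z) - phi β p‖ ∧ ‖VV β p τ z‖ ≤ C * ‖τ‖ ∧
      ‖phi β (psi p τ z) + eps β p τ / (phi β (psi p τ z) - phi β p) - phi β z - VV β p τ z‖ ≤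
        C * ‖τ‖ ^ 2 := by
  obtain ⟨A, hA⟩ : ∃ A, A = 1 / s + 1 / η := ⟨_, rfl⟩
  have hA0 : 0 < A := by rw [hA]; positivity
  obtain ⟨D, hD⟩ : ∃ D, D = 64 / η ^ 3 := ⟨_, rfl⟩
  have hD0 : 0 < D := by rw [hD]; positivity
  obtain ⟨c, hc⟩ : ∃ c, c = min η (s / 2) * η / 4 := ⟨_, rfl⟩
  have hm0 : 0 < min η (s / 2) := lt_min hη (by linarith)
  have hc0 : 0 < c := by rw [hc]; positivity
  -- the constant
  obtain ⟨C, hC⟩ : ∃ C, C = c⁻¹ + A + 4 * A / η + 4 * A / s + (D ^ 2 / c + D * A) +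
      (256 / η ^ 4 * (4 * A ^ 2) + D * A ^ 2 + D ^ 2 * (D * (2 * A)) / c ^ 2) := ⟨_, rfl⟩
  have t1 : 0 ≤ c⁻¹ := by positivity
  have t3 : 0 ≤ 4 * A / η := by positivity
  have t4 : 0 ≤ 4 * A / s := by positivity
  have t5 : 0 ≤ D ^ 2 / c + D * A := by positivity
  have t6 : 0 ≤ 256 / η ^ 4 * (4 * A ^ 2) + D * A ^ 2 + D ^ 2 * (D * (2 * A)) / c ^ 2 := by
    positivity
  have hC0 : 0 < C := by rw [hC]; linarith
  refine ⟨C, hC0, ?_⟩
  intro β h p hp1 hp2 τ hτ z hz1 hz2 hzp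
  have hτ0 := norm_nonneg τ
  have hle : ∀ X : ℝ, X ≤ C → X * ‖τ‖ ≤ 1 := fun X hX => (mul_le_mul_of_nonneg_right hX hτ0).trans hτ
  have hh1 : ‖hh p τ z‖ ≤ A * ‖τ‖ := by
    rw [hA]
    exact hh_le hη hs hp2 (by linarith) hzp
  have hA1 : A * ‖τ‖ ≤ 1 := hle A (by rw [hC]; linarith)
  have hA2 : 2 * (A * ‖τ‖) ≤ η / 2 := by
    have h1 := hle (4 * A / η) (by rw [hC]; linarith)
    rw [div_mul_eq_mul_div, div_le_iff₀ hη] at h1
    linarith
  have hA3 : 2 * (A * ‖τ‖) ≤ s / 2 := by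
    have h1 := hle (4 * A / s) (by rw [hC]; linarith)
    rw [div_mul_eq_mul_div, div_le_iff₀ hs] at h1
    linarith
  have hzn : ‖z‖ ≤ 1 := by linarith
  have he1 : ‖psi p τ z - z‖ ≤ 2 * (A * ‖τ‖) := by
    have h1 : psi p τ z - z = z * (Complex.exp (hh p τ z) - 1) := by unfold psi; ring
    rw [h1, norm_mul]
    have h2 := Complex.norm_exp_sub_one_le (hh1.trans hA1)
    have h3 := norm_nonneg (Complex.exp (hh p τ z) - 1)
    have h4 := norm_nonneg z
    nlinarith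
  have he2 : ‖psi p τ z - z - z * hh p τ z‖ ≤ (A * ‖τ‖) ^ 2 := by
    have h1 : psi p τ z - z - z * hh p τ z = z * (Complex.exp (hh p τ z) - 1 - hh p τ z) := by
      unfold psi; ring
    rw [h1, norm_mul]
    have h2 := Complex.norm_exp_sub_one_sub_id_le (hh1.trans hA1)
    have h3 := norm_nonneg (Complex.exp (hh p τ z) - 1 - hh p τ z)
    have h4 := norm_nonneg z
    have h5 : ‖hh p τ z‖ ^ 2 ≤ (A * ‖τ‖) ^ 2 := pow_le_pow_left₀ (norm_nonneg _) hh1 2
    nlinarith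
  set w : ℂ := psi p τ z with hw
  obtain ⟨hT1, hT2⟩ := taylor_phi h hη hz1 hz2 (he1.trans hA2)
  rw [← hD] at hT2
  have hdz : ‖dphi β z‖ ≤ D := by
    refine (dphi_bounds h hη hz1 hz2).2.trans ?_
    rw [hD, inv_eq_one_div]
    gcongr
    norm_num
  have hdp := dphi_bounds h hη hp1 hp2
  have hdpD : ‖dphi β p‖ ≤ D := by
    refine hdp.2.trans ?_
    rw [hD, inv_eq_one_div]
    gcongr
    norm_num
  -- points near `z`
  have hkoe : ∀ y : ℂ, y ∈ ball (0:ℂ) 1 → y ≠ 0 → s / 2 ≤ ‖y - p‖ → c ≤ ‖phi β y - phi β p‖ := by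
    intro y hy1 hy0 hyp
    have h1 := koebe_phi h hm0 ((min_le_left _ _).trans hp1)
      ((min_le_left η (s / 2)).trans (by linarith)) hy1 hy0 ((min_le_right _ _).trans hyp)
    have h2 : min η (s / 2) * η ≤ min η (s / 2) * ‖dphi β p‖ :=
      mul_le_mul_of_nonneg_left hdp.1 hm0.le
    rw [hc]
    linarith
  have hw3 : ‖w‖ ≤ ‖z‖ + ‖w - z‖ := by
    calc ‖w‖ = ‖z + (w - z)‖ := by congr 1; ring
      _ ≤ _ := norm_add_le _ _
  have hw4 : ‖z‖ ≤ ‖w‖ + ‖w - z‖ := by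
    calc ‖z‖ = ‖w - (w - z)‖ := by congr 1; ring
      _ ≤ _ := norm_sub_le _ _
  have hw5 : ‖z - p‖ ≤ ‖w - p‖ + ‖w - z‖ := by
    calc ‖z - p‖ = ‖(w - p) - (w - z)‖ := by congr 1; ring
      _ ≤ _ := norm_sub_le _ _
  have hwb : w ∈ ball (0:ℂ) 1 := by
    rw [mem_ball_zero_iff]
    linarith
  have hw0 : w ≠ 0 := by
    intro h0
    rw [h0, norm_zero, zero_sub, norm_neg] at hw4
    rw [h0, zero_sub, norm_neg] at he1
    linarith
  have hzb : z ∈ ball (0:ℂ) 1 := by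
    rw [mem_ball_zero_iff]
    linarith
  have hz0 : z ≠ 0 := norm_pos_iff.mp (hη.trans_le hz1)
  have hkw := hkoe w hwb hw0 (by linarith)
  have hkz := hkoe z hzb hz0 (by linarith)
  have hkw0 : phi β w - phi β p ≠ 0 := norm_pos_iff.mp (hc0.trans_le hkw)
  have hkz0 : phi β z - phi β p ≠ 0 := norm_pos_iff.mp (hc0.trans_le hkz)
  have heps : ‖eps β p τ‖ ≤ D ^ 2 * ‖τ‖ := by
    unfold eps
    rw [norm_neg, norm_mul, norm_mul, norm_pow, norm_pow]
    have h1 : ‖p‖ ^ 2 ≤ 1 := by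
      have := norm_nonneg p
      nlinarith
    have h2 : ‖dphi β p‖ ^ 2 ≤ D ^ 2 := pow_le_pow_left₀ (norm_nonneg _) hdpD 2
    calc ‖τ‖ * ‖p‖ ^ 2 * ‖dphi β p‖ ^ 2 ≤ ‖τ‖ * 1 * D ^ 2 := by gcongr
      _ = _ := by ring
  refine ⟨?_, ?_, ?_⟩
  · refine le_trans ?_ hkw
    rw [inv_le_comm₀ hC0 hc0, hC]
    linarith
  · unfold VV
    have h1 : ‖eps β p τ / (phi β z - phi β p)‖ ≤ D ^ 2 * ‖τ‖ / c := by
      rw [norm_div]
      exact div_le_div₀ (by positivity) heps hc0 hkz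
    have h2 : ‖dphi β z * (z * hh p τ z)‖ ≤ D * (A * ‖τ‖) := by
      rw [norm_mul, norm_mul]
      have h3 : ‖z‖ * ‖hh p τ z‖ ≤ 1 * (A * ‖τ‖) := by gcongr
      rw [one_mul] at h3
      gcongr
    calc ‖eps β p τ / (phi β z - phi β p) + dphi β z * (z * hh p τ z)‖ ≤
        D ^ 2 * ‖τ‖ / c + D * (A * ‖τ‖) := (norm_add_le _ _).trans (add_le_add h1 h2)
      _ = (D ^ 2 / c + D * A) * ‖τ‖ := by ring
      _ ≤ C * ‖τ‖ := by
          apply mul_le_mul_of_nonneg_right _ hτ0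
          rw [hC]
          linarith
  · have e : phi β w + eps β p τ / (phi β w - phi β p) - phi β z - VV β p τ z =
        (phi β w - phi β z - dphi β z * (w - z)) + dphi β z * (w - z - z * hh p τ z) -
          eps β p τ * (phi β w - phi β z) / ((phi β w - phi β p) * (phi β z - phi β p)) := by
      unfold VV
      field_simp
      ring
    rw [e]
    have h1 : ‖phi β w - phi β z - dphi β z * (w - z)‖ ≤ 256 / η ^ 4 * (2 * (A * ‖τ‖)) ^ 2 := by
      refine hT1.trans ?_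
      gcongr
    have h2 : ‖dphi β z * (w - z - z * hh p τ z)‖ ≤ D * (A * ‖τ‖) ^ 2 := by
      rw [norm_mul]
      gcongr
    have h3 : ‖eps β p τ * (phi β w - phi β z) / ((phi β w - phi β p) * (phi β z - phi β p))‖ ≤
        D ^ 2 * ‖τ‖ * (D * (2 * (A * ‖τ‖))) / (c * c) := by
      rw [norm_div, norm_mul, norm_mul]
      have h4 : ‖phi β w - phi β z‖ ≤ D * (2 * (A * ‖τ‖)) := hT2.trans (by gcongr)
      apply div_le_div₀ (by positivity)
      · gcongr
      · positivity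
      · gcongr
    calc _ ≤ 256 / η ^ 4 * (2 * (A * ‖τ‖)) ^ 2 + D * (A * ‖τ‖) ^ 2 +
          D ^ 2 * ‖τ‖ * (D * (2 * (A * ‖τ‖))) / (c * c) :=
          (norm_sub_le _ _).trans (add_le_add ((norm_add_le _ _).trans (add_le_add h1 h2)) h3)
      _ = (256 / η ^ 4 * (4 * A ^ 2) + D * A ^ 2 + D ^ 2 * (D * (2 * A)) / c ^ 2) * ‖τ‖ ^ 2 := by
          ring
      _ ≤ C * ‖τ‖ ^ 2 := by
          apply mul_le_mul_of_nonneg_right _ (by positivity)
          rw [hC]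
          linarith

end Pool.Agent.Helper77.CK
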