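import Pool.Agent.Helper39.Area.Exterior
import Pool.Agent.Helper24.Br.Inj

/-!
# CK: Goluzin's two-point inequality

`|log ((φ b - φ a) / (1/b - 1/a))|^2 ≤ log (1/(1-|a|^2)) log (1/(1-|b|^2))` and the lower bound
`|ψ a - ψ b| ≥ (1 - r^(-2)) |a - b|` for `|a|, |b| ≥ r`. Copy of `Helper39/Area/GolMain.lean`
with a second point.
-/

set_option autoImplicit false
open Complex MeasureTheory Metric Set Filter Topology
open scoped Real ENNReal ComplexConjugate NNReal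

namespace Pool.Agent.Helper77.CK

open Pool.Agent.Helper39.Area

variable {β : ℂ → ℂ}

theorem dir_le (h : Ext β) {ρ : ℝ} (hρ : 0 < ρ) (hρ1 : ρ < 1)
    {a : ℂ} (ha : a ∈ ball (0:ℂ) ρ) (ha0 : a ≠ 0) {F : ℂ → ℂ}
    (hF : ∀ ζ ∈ ball (0:ℂ) 1, HasDerivAt F (deriv (qq β a) ζ / qq β a ζ) ζ)
    (hF0 : F 0 = 0) (hexp : ∀ ζ ∈ ball (0:ℂ) 1, Complex.exp (F ζ) = qq β a ζ) :
    ∃ A : ℝ, A ≤ - Real.log (1 - ‖a‖ ^ 2 / ρ ^ 2) ∧
      (∮ ζ in C(0, ρ), conj (F ζ) * (deriv (qq β a) ζ / qq β a ζ)) = 2 * π * I * A := by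
  have ha1 : a ∈ ball (0:ℂ) 1 := mem_ball_of_sphere hρ1 (ball_subset_closedBall ha)
  have hapos : 0 < ‖a‖ := norm_pos_iff.mpr ha0
  have haρ : ‖a‖ < ρ := by simpa using ha
  set Q : ℂ → ℂ := fun ζ => deriv (qq β a) ζ / qq β a ζ with hQ
  set R : ℝ := min 1 (ρ ^ 2 / ‖a‖) with hR
  have hρR : ρ < R := lt_min hρ1 (rad_lt hρ ha ha0)
  have hR1 : ball (0:ℂ) R ⊆ ball 0 1 := ball_subset_ball (min_le_left _ _)
  have hR2 : ball (0:ℂ) R ⊆ ball 0 (ρ ^ 2 / ‖a‖) := ball_subset_ball (min_le_right _ _)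
  have hsR : sphere (0:ℂ) ρ ⊆ ball 0 R := by
    intro ζ hζ
    rw [mem_ball, dist_zero_right]
    rw [mem_sphere, dist_zero_right] at hζ
    linarith
  have hFd : DifferentiableOn ℂ F (ball 0 R) := fun ζ hζ =>
    (hF ζ (hR1 hζ)).differentiableAt.differentiableWithinAt
  have hQd : DifferentiableOn ℂ Q (ball 0 R) := by
    have h1 : DifferentiableOn ℂ (deriv F) (ball 0 R) := hFd.deriv isOpen_ball
    apply h1.congr
    intro ζ hζ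
    exact (hF ζ (hR1 hζ)).deriv.symm
  have hLd : DifferentiableOn ℂ (Lam ρ a) (ball 0 R) := (lam_diff hρ ha ha0).mono hR2
  have hLpd : DifferentiableOn ℂ (Lamp ρ a) (ball 0 R) := by
    have h1 : DifferentiableOn ℂ (deriv (Lam ρ a)) (ball 0 R) := hLd.deriv isOpen_ball
    apply h1.congr
    intro ζ hζ
    exact (lam_hasDeriv hρ ha ha0 (hR2 hζ)).deriv.symm
  have hFc : ContinuousOn F (sphere 0 ρ) := hFd.continuousOn.mono hsR
  have hQc : ContinuousOn Q (sphere 0 ρ) := hQd.continuousOn.mono hsR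
  have hLc : ContinuousOn (Lam ρ a) (sphere 0 ρ) := hLd.continuousOn.mono hsR
  have hLpc : ContinuousOn (Lamp ρ a) (sphere 0 ρ) := hLpd.continuousOn.mono hsR
  have hgpc : ContinuousOn (gp a) (sphere 0 ρ) := gp_cont ha hρ
  set G : ℂ → ℂ := fun ζ => Complex.log (1 - a / ζ) with hG
  have hGc : ContinuousOn G (sphere 0 ρ) := fun ζ hζ =>
    (g_hasDeriv ha hρ hζ).continuousAt.continuousWithinAt
  have hcFc : ContinuousOn (fun ζ => conj (F ζ)) (sphere 0 ρ) :=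
    Complex.continuous_conj.comp_continuousOn hFc
  have hFs : ∀ ζ ∈ sphere (0:ℂ) ρ, HasDerivAt F (Q ζ) ζ := fun ζ hζ => hF ζ (hR1 (hsR hζ))
  have hLs : ∀ ζ ∈ sphere (0:ℂ) ρ, HasDerivAt (Lam ρ a) (Lamp ρ a ζ) ζ := fun ζ hζ =>
    lam_hasDeriv hρ ha ha0 (hR2 (hsR hζ))
  have hGs : ∀ ζ ∈ sphere (0:ℂ) ρ, HasDerivAt G (gp a ζ) ζ := fun ζ hζ => g_hasDeriv ha hρ hζ
  have hGL : ∀ ζ ∈ sphere (0:ℂ) ρ, conj (Lam ρ a ζ) = G ζ := fun ζ hζ => conj_lam hρ ha ha0 hζ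
  set ℓ : ℝ := - Real.log (1 - ‖a‖ ^ 2 / ρ ^ 2) with hℓ
  have hfrac : 0 < ‖a‖ ^ 2 / ρ ^ 2 := by positivity
  have hfrac1 : ‖a‖ ^ 2 / ρ ^ 2 < 1 := by
    rw [div_lt_one (by positivity)]
    exact pow_lt_pow_left₀ haρ hapos.le two_ne_zero
  have hℓpos : 0 < ℓ := by
    rw [hℓ, neg_pos]
    exact Real.log_neg (by linarith) (by linarith)
  have hLa : Lam ρ a a = -(ℓ:ℂ) := by
    rw [lam_self hρ ha, hℓ]; push_cast; ring
  have hL0 : Lam ρ a 0 = 0 := lam_zero ρ a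
  -- the basic integrals
  have I3 : (∮ ζ in C(0, ρ), G ζ * Q ζ) = -(2 * π * I * F a) := by
    rw [parts hρ hGs hFs hgpc hQc, repro hρ hρR hFd ha, hF0, sub_zero]
  have I4 : (∮ ζ in C(0, ρ), G ζ * gp a ζ) = 0 := by
    have h1 := parts hρ hGs hGs hgpc hgpc
    have h2 : (2:ℂ) * (∮ ζ in C(0, ρ), G ζ * gp a ζ) = 0 := by linear_combination h1
    simpa using h2
  obtain ⟨A, hA0, hA⟩ := dirichlet_nonneg hFd hρ hρR
  have I5 : (∮ ζ in C(0, ρ), conj (F ζ) * Q ζ) = 2 * π * I * A := by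
    rw [← hA]
    apply circleIntegral.integral_congr hρ.le
    intro ζ hζ
    simp only
    rw [(hFs ζ hζ).deriv]
  have I6 : (∮ ζ in C(0, ρ), conj (F ζ) * gp a ζ) = 0 := by
    have h1 := conj_circle hρ (fun ζ => conj (F ζ) * gp a ζ)
    have h2 : (∮ ζ in C(0, ρ), (-((ρ:ℂ) ^ 2 / ζ ^ 2)) * conj (conj (F ζ) * gp a ζ)) =
        ∮ ζ in C(0, ρ), F ζ * Lamp ρ a ζ := by
      apply circleIntegral.integral_congr hρ.le
      intro ζ hζ
      simp only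
      rw [map_mul, Complex.conj_conj, ← lamp_eq hρ ha ha0 hζ]
      ring
    have hz : (∮ ζ in C(0, ρ), F ζ * Lamp ρ a ζ) = 0 := cauchy_zero hρ hρR (hFd.mul hLpd)
    rw [h2, hz] at h1
    simpa using h1
  -- the area inequality
  obtain ⟨c, hc0, hc⟩ := area_log h hρ hρ1 ha ha0
  set c0 : ℂ := ((-2 * Real.log ‖a‖ : ℝ) : ℂ) with hc0'
  have hW : DifferentiableOn ℂ (fun ζ => c0 + Lam ρ a ζ + F ζ) (ball 0 R) :=
    ((differentiableOn_const c0).add hLd).add hFd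
  have hWc : ContinuousOn (fun ζ => c0 + Lam ρ a ζ + F ζ) (sphere 0 ρ) := hW.continuousOn.mono hsR
  have I1 : (∮ ζ in C(0, ρ), (c0 + Lam ρ a ζ + F ζ) * Q ζ) = 0 :=
    cauchy_zero hρ hρR (hW.mul hQd)
  have I2 : (∮ ζ in C(0, ρ), (c0 + Lam ρ a ζ + F ζ) * gp a ζ) = 2 * π * I * (F a - ℓ) := by
    rw [repro hρ hρR hW ha, hLa, hL0, hF0]
    ring
  have hJ : (∮ ζ in C(0, ρ), ((2 * Real.log ‖phi β ζ - phi β a‖ : ℝ) : ℂ) *
      (dphi β ζ / (phi β ζ - phi β a))) =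
      ∮ ζ in C(0, ρ), ((((((c0 + Lam ρ a ζ + F ζ) * Q ζ) + ((c0 + Lam ρ a ζ + F ζ) * gp a ζ)) +
        (G ζ * Q ζ)) + (G ζ * gp a ζ)) + (conj (F ζ) * Q ζ)) + (conj (F ζ) * gp a ζ) := by
    apply circleIntegral.integral_congr hρ.le
    intro ζ hζ
    have hζ1 : ζ ∈ ball (0:ℂ) 1 := hR1 (hsR hζ)
    have hζ0 : ζ ≠ 0 := sphere_ne' hρ hζ
    have hne : ζ ≠ a := by
      rintro rfl
      simp at hζ
      linarith
    have h1 : ((2 * Real.log ‖phi β ζ - phi β a‖ : ℝ) : ℂ) =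
        c0 + Lam ρ a ζ + F ζ + G ζ + conj (F ζ) := by
      have h2 : phi β ζ - phi β a = -a⁻¹ * (1 - a / ζ) * qq β a ζ := by
        rw [phi_sub a ζ ha0 hζ0]
        field_simp
        ring
      have h3 : (1 - a / ζ) ≠ 0 := by
        intro h'
        rw [sub_eq_zero, eq_div_iff hζ0, one_mul] at h'
        exact hne h'
      have h4 : qq β a ζ ≠ 0 := qq_ne h ha1 hζ1
      have h5 : Real.log ‖phi β ζ - phi β a‖ = - Real.log ‖a‖ + (G ζ).re + (F ζ).re := by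
        rw [h2, norm_mul, norm_mul, norm_neg, norm_inv,
          Real.log_mul (mul_ne_zero (inv_ne_zero hapos.ne') (norm_ne_zero_iff.mpr h3))
            (norm_ne_zero_iff.mpr h4),
          Real.log_mul (inv_ne_zero hapos.ne') (norm_ne_zero_iff.mpr h3), Real.log_inv, hG,
          Complex.log_re, ← hexp ζ hζ1, Complex.norm_exp, Real.log_exp]
      have h6 : Lam ρ a ζ = conj (G ζ) := by rw [← hGL ζ hζ, Complex.conj_conj]
      rw [h5, h6, hc0']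
      have h7 := Complex.add_conj (G ζ)
      have h8 := Complex.add_conj (F ζ)
      push_cast at h7 h8 ⊢
      linear_combination -h7 - h8
    simp only
    rw [h1, dphi_div h ha1 hζ1 ha0 hζ0 hne]
    simp only [gp, hQ]
    ring
  have hc1 : CircleIntegrable (fun ζ => (c0 + Lam ρ a ζ + F ζ) * Q ζ) 0 ρ :=
    (hWc.mul hQc).circleIntegrable hρ.le
  have hc2 : CircleIntegrable (fun ζ => (c0 + Lam ρ a ζ + F ζ) * gp a ζ) 0 ρ :=
    (hWc.mul hgpc).circleIntegrable hρ.le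
  have hc3 : CircleIntegrable (fun ζ => G ζ * Q ζ) 0 ρ := (hGc.mul hQc).circleIntegrable hρ.le
  have hc4 : CircleIntegrable (fun ζ => G ζ * gp a ζ) 0 ρ := (hGc.mul hgpc).circleIntegrable hρ.le
  have hc5 : CircleIntegrable (fun ζ => conj (F ζ) * Q ζ) 0 ρ :=
    (hcFc.mul hQc).circleIntegrable hρ.le
  have hc6 : CircleIntegrable (fun ζ => conj (F ζ) * gp a ζ) 0 ρ :=
    (hcFc.mul hgpc).circleIntegrable hρ.le
  have hc12 : CircleIntegrable (fun ζ => ((c0 + Lam ρ a ζ + F ζ) * Q ζ) +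
      ((c0 + Lam ρ a ζ + F ζ) * gp a ζ)) 0 ρ := hc1.add hc2
  have hc13 : CircleIntegrable (fun ζ => (((c0 + Lam ρ a ζ + F ζ) * Q ζ) +
      ((c0 + Lam ρ a ζ + F ζ) * gp a ζ)) + (G ζ * Q ζ)) 0 ρ := hc12.add hc3
  have hc14 : CircleIntegrable (fun ζ => ((((c0 + Lam ρ a ζ + F ζ) * Q ζ) +
      ((c0 + Lam ρ a ζ + F ζ) * gp a ζ)) + (G ζ * Q ζ)) + (G ζ * gp a ζ)) 0 ρ := hc13.add hc4
  have hc15 : CircleIntegrable (fun ζ => (((((c0 + Lam ρ a ζ + F ζ) * Q ζ) +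
      ((c0 + Lam ρ a ζ + F ζ) * gp a ζ)) + (G ζ * Q ζ)) + (G ζ * gp a ζ)) +
      (conj (F ζ) * Q ζ)) 0 ρ := hc14.add hc5
  rw [hJ, circleIntegral.integral_add hc15 hc6, circleIntegral.integral_add hc14 hc5,
    circleIntegral.integral_add hc13 hc4, circleIntegral.integral_add hc12 hc3,
    circleIntegral.integral_add hc1 hc2, I1, I2, I3, I4, I5, I6] at hc
  have hpi : (π:ℂ) ≠ 0 := by exact_mod_cast Real.pi_ne_zero
  have hAc : (A:ℂ) = ℓ - c / π := by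
    have hI : (2 * I : ℂ) ≠ 0 := by simp
    have : (2 * I : ℂ) * (π * A) = (2 * I : ℂ) * (π * ℓ - c) := by linear_combination hc
    have h2 := mul_left_cancel₀ hI this
    field_simp
    linear_combination h2
  have hAr : A = ℓ - c / π := by exact_mod_cast hAc
  have hAle : A ≤ ℓ := by
    rw [hAr]
    have : 0 ≤ c / π := div_nonneg hc0 Real.pi_pos.le
    linarith
  exact ⟨A, hAle, I5⟩

/-- two points -/
theorem two_aux (h : Ext β) {ρ : ℝ} (hρ : 0 < ρ) (hρ1 : ρ < 1)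
    {a b : ℂ} (ha : a ∈ ball (0:ℂ) ρ) (ha0 : a ≠ 0) (hb : b ∈ ball (0:ℂ) ρ) (hb0 : b ≠ 0)
    {F : ℂ → ℂ}
    (hF : ∀ ζ ∈ ball (0:ℂ) 1, HasDerivAt F (deriv (qq β a) ζ / qq β a ζ) ζ)
    (hF0 : F 0 = 0) (hexp : ∀ ζ ∈ ball (0:ℂ) 1, Complex.exp (F ζ) = qq β a ζ) :
    ‖F b‖ ^ 2 ≤ Real.log (1 - ‖a‖ ^ 2 / ρ ^ 2) * Real.log (1 - ‖b‖ ^ 2 / ρ ^ 2) := by
  obtain ⟨A, hAle, I5⟩ := dir_le h hρ hρ1 ha ha0 hF hF0 hexp
  have hbpos : 0 < ‖b‖ := norm_pos_iff.mpr hb0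
  have hbρ : ‖b‖ < ρ := by simpa using hb
  set Q : ℂ → ℂ := fun ζ => deriv (qq β a) ζ / qq β a ζ with hQ
  set R : ℝ := min 1 (ρ ^ 2 / ‖b‖) with hR
  have hρR : ρ < R := lt_min hρ1 (rad_lt hρ hb hb0)
  have hR1 : ball (0:ℂ) R ⊆ ball 0 1 := ball_subset_ball (min_le_left _ _)
  have hR2 : ball (0:ℂ) R ⊆ ball 0 (ρ ^ 2 / ‖b‖) := ball_subset_ball (min_le_right _ _)
  have hsR : sphere (0:ℂ) ρ ⊆ ball 0 R := by
    intro ζ hζ
    rw [mem_ball, dist_zero_right]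
    rw [mem_sphere, dist_zero_right] at hζ
    linarith
  have hFd : DifferentiableOn ℂ F (ball 0 R) := fun ζ hζ =>
    (hF ζ (hR1 hζ)).differentiableAt.differentiableWithinAt
  have hQd : DifferentiableOn ℂ Q (ball 0 R) := by
    have h1 : DifferentiableOn ℂ (deriv F) (ball 0 R) := hFd.deriv isOpen_ball
    apply h1.congr
    intro ζ hζ
    exact (hF ζ (hR1 hζ)).deriv.symm
  have hLd : DifferentiableOn ℂ (Lam ρ b) (ball 0 R) := (lam_diff hρ hb hb0).mono hR2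
  have hLpd : DifferentiableOn ℂ (Lamp ρ b) (ball 0 R) := by
    have h1 : DifferentiableOn ℂ (deriv (Lam ρ b)) (ball 0 R) := hLd.deriv isOpen_ball
    apply h1.congr
    intro ζ hζ
    exact (lam_hasDeriv hρ hb hb0 (hR2 hζ)).deriv.symm
  have hFc : ContinuousOn F (sphere 0 ρ) := hFd.continuousOn.mono hsR
  have hQc : ContinuousOn Q (sphere 0 ρ) := hQd.continuousOn.mono hsR
  have hLc : ContinuousOn (Lam ρ b) (sphere 0 ρ) := hLd.continuousOn.mono hsR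
  have hLpc : ContinuousOn (Lamp ρ b) (sphere 0 ρ) := hLpd.continuousOn.mono hsR
  have hgpc : ContinuousOn (gp b) (sphere 0 ρ) := gp_cont hb hρ
  set G : ℂ → ℂ := fun ζ => Complex.log (1 - b / ζ) with hG
  have hGc : ContinuousOn G (sphere 0 ρ) := fun ζ hζ =>
    (g_hasDeriv hb hρ hζ).continuousAt.continuousWithinAt
  have hcFc : ContinuousOn (fun ζ => conj (F ζ)) (sphere 0 ρ) :=
    Complex.continuous_conj.comp_continuousOn hFc
  have hFs : ∀ ζ ∈ sphere (0:ℂ) ρ, HasDerivAt F (Q ζ) ζ := fun ζ hζ => hF ζ (hR1 (hsR hζ))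
  have hLs : ∀ ζ ∈ sphere (0:ℂ) ρ, HasDerivAt (Lam ρ b) (Lamp ρ b ζ) ζ := fun ζ hζ =>
    lam_hasDeriv hρ hb hb0 (hR2 (hsR hζ))
  have hGs : ∀ ζ ∈ sphere (0:ℂ) ρ, HasDerivAt G (gp b ζ) ζ := fun ζ hζ => g_hasDeriv hb hρ hζ
  have hGL : ∀ ζ ∈ sphere (0:ℂ) ρ, conj (Lam ρ b ζ) = G ζ := fun ζ hζ => conj_lam hρ hb hb0 hζ
  set ℓ : ℝ := - Real.log (1 - ‖b‖ ^ 2 / ρ ^ 2) with hℓ
  have hfrac : 0 < ‖b‖ ^ 2 / ρ ^ 2 := by positivity
  have hfrac1 : ‖b‖ ^ 2 / ρ ^ 2 < 1 := by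
    rw [div_lt_one (by positivity)]
    exact pow_lt_pow_left₀ hbρ hbpos.le two_ne_zero
  have hℓpos : 0 < ℓ := by
    rw [hℓ, neg_pos]
    exact Real.log_neg (by linarith) (by linarith)
  have hLa : Lam ρ b b = -(ℓ:ℂ) := by
    rw [lam_self hρ hb, hℓ]; push_cast; ring
  have hL0 : Lam ρ b 0 = 0 := lam_zero ρ b
  have I3 : (∮ ζ in C(0, ρ), G ζ * Q ζ) = -(2 * π * I * F b) := by
    rw [parts hρ hGs hFs hgpc hQc, repro hρ hρR hFd hb, hF0, sub_zero]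
  have I7 : (∮ ζ in C(0, ρ), conj (F ζ) * Lamp ρ b ζ) = -(2 * π * I * conj (F b)) := by
    have h1 := conj_circle hρ (fun ζ => conj (F ζ) * Lamp ρ b ζ)
    have h2 : (∮ ζ in C(0, ρ), (-((ρ:ℂ) ^ 2 / ζ ^ 2)) * conj (conj (F ζ) * Lamp ρ b ζ)) =
        ∮ ζ in C(0, ρ), F ζ * gp b ζ := by
      apply circleIntegral.integral_congr hρ.le
      intro ζ hζ
      simp only
      rw [map_mul, Complex.conj_conj, ← gp_eq hρ hb hb0 hζ]
      ring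
    rw [h2, repro hρ hρR hFd hb, hF0, sub_zero] at h1
    have h3 := congrArg conj h1
    rw [Complex.conj_conj] at h3
    rw [h3]
    simp only [map_mul, Complex.conj_ofReal, Complex.conj_I, map_ofNat]
    ring
  have I8 : (∮ ζ in C(0, ρ), G ζ * Lamp ρ b ζ) = 2 * π * I * ℓ := by
    rw [parts hρ hGs hLs hgpc hLpc, repro hρ hρR hLd hb, hLa, hL0]
    ring
  -- the Dirichlet form of the combination
  set lam : ℂ := F b / ℓ with hlam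
  have hEd : DifferentiableOn ℂ (fun ζ => F ζ + lam * Lam ρ b ζ) (ball 0 R) :=
    hFd.add (hLd.const_mul lam)
  obtain ⟨c2, hc20, hc2'⟩ := dirichlet_nonneg hEd hρ hρR
  have hℓc : (ℓ:ℂ) ≠ 0 := by exact_mod_cast hℓpos.ne'
  have hE : (∮ ζ in C(0, ρ), conj (F ζ + lam * Lam ρ b ζ) *
      deriv (fun ζ => F ζ + lam * Lam ρ b ζ) ζ) =
      ∮ ζ in C(0, ρ), (((conj (F ζ) * Q ζ) + lam * (conj (F ζ) * Lamp ρ b ζ)) +
        conj lam * (G ζ * Q ζ)) + (conj lam * lam) * (G ζ * Lamp ρ b ζ) := by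
    apply circleIntegral.integral_congr hρ.le
    intro ζ hζ
    have h1 : deriv (fun ζ => F ζ + lam * Lam ρ b ζ) ζ = Q ζ + lam * Lamp ρ b ζ :=
      ((hFs ζ hζ).add ((hLs ζ hζ).const_mul lam)).deriv
    simp only
    rw [h1, map_add, map_mul, hGL ζ hζ]
    ring
  have hc5 : CircleIntegrable (fun ζ => conj (F ζ) * Q ζ) 0 ρ :=
    (hcFc.mul hQc).circleIntegrable hρ.le
  have hd2 : CircleIntegrable (fun ζ => lam * (conj (F ζ) * Lamp ρ b ζ)) 0 ρ :=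
    (continuousOn_const.mul (hcFc.mul hLpc)).circleIntegrable hρ.le
  have hd3 : CircleIntegrable (fun ζ => conj lam * (G ζ * Q ζ)) 0 ρ :=
    (continuousOn_const.mul (hGc.mul hQc)).circleIntegrable hρ.le
  have hd4 : CircleIntegrable (fun ζ => (conj lam * lam) * (G ζ * Lamp ρ b ζ)) 0 ρ :=
    (continuousOn_const.mul (hGc.mul hLpc)).circleIntegrable hρ.le
  have hd12 : CircleIntegrable (fun ζ => (conj (F ζ) * Q ζ) +
      lam * (conj (F ζ) * Lamp ρ b ζ)) 0 ρ := hc5.add hd2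
  have hd13 : CircleIntegrable (fun ζ => ((conj (F ζ) * Q ζ) +
      lam * (conj (F ζ) * Lamp ρ b ζ)) + conj lam * (G ζ * Q ζ)) 0 ρ := hd12.add hd3
  rw [hE, circleIntegral.integral_add hd13 hd4, circleIntegral.integral_add hd12 hd3,
    circleIntegral.integral_add hc5 hd2, circleIntegral.integral_const_mul,
    circleIntegral.integral_const_mul, circleIntegral.integral_const_mul, I5, I7, I3, I8] at hc2'
  have hFb : F b * conj (F b) = ((‖F b‖ ^ 2 : ℝ) : ℂ) := by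
    rw [Complex.mul_conj, Complex.normSq_eq_norm_sq]
  have hclam : conj lam = conj (F b) / ℓ := by
    rw [hlam, map_div₀, Complex.conj_ofReal]
  have hfin : (A:ℂ) = c2 + ((‖F b‖ ^ 2 : ℝ) : ℂ) / ℓ := by
    have h2pi : (2 * π * I : ℂ) ≠ 0 := two_pi_I_ne_zero
    apply mul_left_cancel₀ h2pi
    rw [← hFb]
    rw [hclam, hlam] at hc2'
    have h9 : (2 * π * I : ℂ) * A + F b / ℓ * -(2 * π * I * conj (F b)) +
        conj (F b) / ℓ * -(2 * π * I * F b) + conj (F b) / ℓ * (F b / ℓ) * (2 * π * I * ℓ) =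
        2 * π * I * (A - F b * conj (F b) / ℓ) := by
      field_simp
      ring
    rw [h9] at hc2'
    linear_combination hc2'
  have hfinr : A = c2 + ‖F b‖ ^ 2 / ℓ := by exact_mod_cast hfin
  have h10 : ‖F b‖ ^ 2 / ℓ ≤ - Real.log (1 - ‖a‖ ^ 2 / ρ ^ 2) := by linarith
  rw [div_le_iff₀ hℓpos] at h10
  rw [hℓ] at h10
  linarith

/-- Goluzin's inequality at two points -/
theorem two_log (h : Ext β) {a b : ℂ} (ha : a ∈ ball (0:ℂ) 1) (ha0 : a ≠ 0)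
    (hb : b ∈ ball (0:ℂ) 1) (hb0 : b ≠ 0) {F : ℂ → ℂ}
    (hF : ∀ ζ ∈ ball (0:ℂ) 1, HasDerivAt F (deriv (qq β a) ζ / qq β a ζ) ζ)
    (hF0 : F 0 = 0) (hexp : ∀ ζ ∈ ball (0:ℂ) 1, Complex.exp (F ζ) = qq β a ζ) :
    ‖F b‖ ^ 2 ≤ Real.log (1 - ‖a‖ ^ 2) * Real.log (1 - ‖b‖ ^ 2) := by
  have ha' : ‖a‖ < 1 := by simpa using ha
  have hb' : ‖b‖ < 1 := by simpa using hb
  have hc : ∀ c : ℂ, ‖c‖ < 1 → ContinuousAt (fun ρ : ℝ => Real.log (1 - ‖c‖ ^ 2 / ρ ^ 2)) 1 := by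
    intro c hc
    apply ContinuousAt.log
    · apply ContinuousAt.sub continuousAt_const
      apply ContinuousAt.div continuousAt_const (by fun_prop) (by norm_num)
    · have : ‖c‖ ^ 2 < 1 := by nlinarith [norm_nonneg c]
      simp only [one_pow, div_one]
      linarith
  have hlim : Tendsto (fun ρ : ℝ => Real.log (1 - ‖a‖ ^ 2 / ρ ^ 2) *
      Real.log (1 - ‖b‖ ^ 2 / ρ ^ 2)) (𝓝[<] 1)
      (𝓝 (Real.log (1 - ‖a‖ ^ 2) * Real.log (1 - ‖b‖ ^ 2))) := by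
    have h2 := ((hc a ha').tendsto.mul (hc b hb').tendsto)
    rw [one_pow, div_one, div_one] at h2
    exact h2.mono_left nhdsWithin_le_nhds
  apply ge_of_tendsto hlim
  have h1 : Ioo (max ‖a‖ ‖b‖) 1 ∈ 𝓝[<] (1:ℝ) := Ioo_mem_nhdsLT (max_lt ha' hb')
  filter_upwards [h1] with ρ hρ
  have h2 : ‖a‖ < ρ := (le_max_left _ _).trans_lt hρ.1
  have h3 : ‖b‖ < ρ := (le_max_right _ _).trans_lt hρ.1
  exact two_aux h ((norm_nonneg a).trans_lt h2) hρ.2 (by simpa using h2) ha0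
    (by simpa using h3) hb0 hF hF0 hexp

/-- the logarithm of the difference quotient -/
theorem exists_log (h : Ext β) {a : ℂ} (ha : a ∈ ball (0:ℂ) 1) :
    ∃ F : ℂ → ℂ, F 0 = 0 ∧
      (∀ ζ ∈ ball (0:ℂ) 1, HasDerivAt F (deriv (qq β a) ζ / qq β a ζ) ζ) ∧
      ∀ ζ ∈ ball (0:ℂ) 1, Complex.exp (F ζ) = qq β a ζ := by
  have h0b : (0:ℂ) ∈ ball (0:ℂ) 1 := mem_ball_self one_pos
  have hqd := qq_diff h.diff ha
  have hQd : DifferentiableOn ℂ (fun ζ => deriv (qq β a) ζ / qq β a ζ) (ball 0 1) :=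
    (hqd.deriv isOpen_ball).div hqd (fun ζ hζ => qq_ne h ha hζ)
  obtain ⟨F, hF0, hF⟩ := hQd.isExactOn_ball.with_val_at 0 0
  refine ⟨F, hF0, hF, ?_⟩
  have hderiv : ∀ ζ ∈ ball (0:ℂ) 1, HasDerivAt (fun ζ => Complex.exp (-F ζ) * qq β a ζ) 0 ζ := by
    intro ζ hζ
    have h1 := ((hF ζ hζ).neg.cexp).mul
      ((hqd.differentiableAt (isOpen_ball.mem_nhds hζ)).hasDerivAt)
    have h2 := qq_ne h ha hζ
    have e : (0:ℂ) = Complex.exp (-F ζ) * -(deriv (qq β a) ζ / qq β a ζ) * qq β a ζ +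
        Complex.exp (-F ζ) * deriv (qq β a) ζ := by
      field_simp
      ring
    rw [e]
    exact h1
  intro ζ hζ
  have h1 : Complex.exp (-F ζ) * qq β a ζ = Complex.exp (-F 0) * qq β a 0 := by
    apply (convex_ball (0:ℂ) 1).is_const_of_fderivWithin_eq_zero (𝕜 := ℂ)
      (f := fun ζ => Complex.exp (-F ζ) * qq β a ζ) _ _ hζ h0b
    · intro ω hω
      exact (hderiv ω hω).differentiableAt.differentiableWithinAt
    · intro ω hω
      have h3 := (hderiv ω hω).hasFDerivAt.hasFDerivWithinAt (s := ball (0:ℂ) 1)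
      rw [h3.fderivWithin (isOpen_ball.uniqueDiffWithinAt hω)]
      ext
      simp
  rw [hF0, neg_zero, Complex.exp_zero, one_mul] at h1
  have h2 : qq β a 0 = 1 := by simp [qq]
  rw [h2, Complex.exp_neg] at h1
  have h3 := Complex.exp_ne_zero (F ζ)
  field_simp at h1
  exact h1.symm

/-- the difference quotient is at least `1 - s^2` -/
theorem qq_ge (h : Ext β) {a b : ℂ} (ha0 : a ≠ 0) (hb0 : b ≠ 0) {s : ℝ} (hs : s < 1)
    (ha : ‖a‖ ≤ s) (hb : ‖b‖ ≤ s) : 1 - s ^ 2 ≤ ‖qq β a b‖ ∧ ‖qq β a b‖ ≤ 1 / (1 - s ^ 2) := by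
  have ha1 : a ∈ ball (0:ℂ) 1 := by simpa using ha.trans_lt hs
  have hb1 : b ∈ ball (0:ℂ) 1 := by simpa using hb.trans_lt hs
  have hs0 : 0 ≤ s := (norm_nonneg a).trans ha
  have hs1 : 0 < 1 - s ^ 2 := by nlinarith
  obtain ⟨F, hF0, hF, hexp⟩ := exists_log h ha1
  have h1 := two_log h ha1 ha0 hb1 hb0 hF hF0 hexp
  have h2 : ∀ c : ℂ, ‖c‖ ≤ s → 0 ≤ -Real.log (1 - ‖c‖ ^ 2) ∧
      -Real.log (1 - ‖c‖ ^ 2) ≤ -Real.log (1 - s ^ 2) := by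
    intro c hc
    have h3 : ‖c‖ ^ 2 ≤ s ^ 2 := pow_le_pow_left₀ (norm_nonneg c) hc 2
    refine ⟨?_, ?_⟩
    · rw [neg_nonneg]
      exact Real.log_nonpos (by linarith) (by nlinarith [norm_nonneg c])
    · exact neg_le_neg (Real.log_le_log hs1 (by linarith))
  obtain ⟨ha2, ha3⟩ := h2 a ha
  obtain ⟨hb2, hb3⟩ := h2 b hb
  have h4 : ‖F b‖ ^ 2 ≤ (-Real.log (1 - s ^ 2)) ^ 2 := by
    calc ‖F b‖ ^ 2 ≤ (-Real.log (1 - ‖a‖ ^ 2)) * (-Real.log (1 - ‖b‖ ^ 2)) := by linarith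
      _ ≤ (-Real.log (1 - s ^ 2)) * (-Real.log (1 - s ^ 2)) := by gcongr; exact ha2.trans ha3
      _ = _ := by ring
  have h5 : ‖F b‖ ≤ -Real.log (1 - s ^ 2) := by
    have h6 : 0 ≤ -Real.log (1 - s ^ 2) := ha2.trans ha3
    exact le_of_sq_le_sq h4 h6
  have h7 : ‖qq β a b‖ = Real.exp (F b).re := by
    rw [← hexp b hb1, Complex.norm_exp]
  have h8 : |(F b).re| ≤ -Real.log (1 - s ^ 2) := (Complex.abs_re_le_norm _).trans h5
  rw [abs_le] at h8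
  rw [h7]
  constructor
  · calc 1 - s ^ 2 = Real.exp (Real.log (1 - s ^ 2)) := (Real.exp_log hs1).symm
      _ ≤ _ := Real.exp_le_exp.2 (by linarith [h8.1])
  · calc Real.exp (F b).re ≤ Real.exp (-Real.log (1 - s ^ 2)) := Real.exp_le_exp.2 h8.2
      _ = 1 / (1 - s ^ 2) := by rw [Real.exp_neg, Real.exp_log hs1, one_div]

/-- lower bound, in the coordinate `ζ = 1/z` -/
theorem phi_sub_ge (h : Ext β) {a b : ℂ} (ha0 : a ≠ 0) (hb0 : b ≠ 0) {s : ℝ} (hs : s < 1)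
    (ha : ‖a‖ ≤ s) (hb : ‖b‖ ≤ s) :
    (1 - s ^ 2) * ‖b⁻¹ - a⁻¹‖ ≤ ‖phi β b - phi β a‖ := by
  rw [phi_sub a b ha0 hb0, norm_mul, mul_comm]
  exact mul_le_mul_of_nonneg_left (qq_ge h ha0 hb0 hs ha hb).1 (norm_nonneg _)

/-- upper bound, in the coordinate `ζ = 1/z` -/
theorem phi_sub_le (h : Ext β) {a b : ℂ} (ha0 : a ≠ 0) (hb0 : b ≠ 0) {s : ℝ} (hs : s < 1)
    (ha : ‖a‖ ≤ s) (hb : ‖b‖ ≤ s) :
    ‖phi β b - phi β a‖ ≤ ‖b⁻¹ - a⁻¹‖ / (1 - s ^ 2) := by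
  rw [phi_sub a b ha0 hb0, norm_mul, div_eq_mul_one_div]
  exact mul_le_mul_of_nonneg_left (qq_ge h ha0 hb0 hs ha hb).2 (norm_nonneg _)

section

variable {ψ : ℂ → ℂ}

/-- the data of an injective function on `|z| > 1` -/
theorem ext_of {c : ℂ} (hψ : DifferentiableOn ℂ ψ {z : ℂ | 1 < ‖z‖})
    (hinj : InjOn ψ {z : ℂ | 1 < ‖z‖})
    (hb : Tendsto (fun z => ψ z - z) (Bornology.cobounded ℂ) (𝓝 c)) :
    Ext (toDisc c (fun z => ψ z - z)) := by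
  set β : ℂ → ℂ := toDisc c (fun z => ψ z - z) with hβ
  have hdiff : DifferentiableOn ℂ β (ball 0 1) := toDisc_diff (hψ.sub differentiableOn_id) hb
  have hβ' : ∀ ζ : ℂ, ζ ≠ 0 → β ζ = ψ ζ⁻¹ - ζ⁻¹ := by
    intro ζ hζ
    simp only [hβ, toDisc]
    rw [if_neg hζ]
  refine ⟨hdiff, ?_, ?_⟩
  · intro ζ ω hζ hω hζ0 hω0 heq
    rw [hβ' ζ hζ0, hβ' ω hω0] at heq
    have h1 : ψ ζ⁻¹ = ψ ω⁻¹ := by linear_combination heq
    exact inv_injective (hinj (inv_mem hζ hζ0) (inv_mem hω hω0) h1)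
  · intro ζ hζ h'
    by_cases h0 : ζ = 0
    · subst h0
      simp at h'
    · have h1 := inv_mem hζ h0
      have h3 := (hψ.differentiableAt (isOpen_ext.mem_nhds h1)).hasDerivAt
      have h4 : HasDerivAt (fun ζ : ℂ => ψ ζ⁻¹) (deriv ψ ζ⁻¹ * -(ζ ^ 2)⁻¹) ζ :=
        h3.comp ζ (hasDerivAt_inv h0)
      have h5 : HasDerivAt (fun ζ : ℂ => ψ ζ⁻¹ - ζ⁻¹) (deriv ψ ζ⁻¹ * -(ζ ^ 2)⁻¹ - -(ζ ^ 2)⁻¹) ζ :=
        h4.sub (hasDerivAt_inv h0)
      have h6 : β =ᶠ[𝓝 ζ] fun ζ : ℂ => ψ ζ⁻¹ - ζ⁻¹ := by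
        filter_upwards [isOpen_ne.mem_nhds h0] with ω hω
        exact hβ' ω hω
      rw [(h5.congr_of_eventuallyEq h6).deriv] at h'
      have h7 : deriv ψ ζ⁻¹ = 0 := by
        have h8 : ζ ^ 2 ≠ 0 := pow_ne_zero 2 h0
        have h9 : ζ ^ 2 * (deriv ψ ζ⁻¹ * -(ζ ^ 2)⁻¹ - -(ζ ^ 2)⁻¹) = 1 - deriv ψ ζ⁻¹ := by
          field_simp
          ring
        rw [h9] at h'
        linear_combination h'
      exact Pool.Agent.Helper24.Br.deriv_ne_of_inj isOpen_ext hψ hinj h1 h7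

/-- `|ψ a - ψ b| ≥ (1 - r^(-2)) |a - b|` for `|a|, |b| ≥ r` -/
theorem ext_sub_ge (hψ : DifferentiableOn ℂ ψ {z : ℂ | 1 < ‖z‖})
    (hinj : InjOn ψ {z : ℂ | 1 < ‖z‖})
    (hb : ∃ c : ℂ, Tendsto (fun z => ψ z - z) (Bornology.cobounded ℂ) (𝓝 c))
    {r : ℝ} (hr : 1 < r) {x y : ℂ} (hx : r ≤ ‖x‖) (hy : r ≤ ‖y‖) :
    (1 - (r ^ 2)⁻¹) * ‖x - y‖ ≤ ‖ψ x - ψ y‖ ∧
      ‖ψ x - ψ y‖ ≤ ‖x - y‖ / (1 - (r ^ 2)⁻¹) := by
  obtain ⟨c, hc⟩ := hb
  have he := ext_of hψ hinj hc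
  have hr0 : 0 < r := by linarith
  have hx0 : x ≠ 0 := by
    rintro rfl
    simp at hx
    linarith
  have hy0 : y ≠ 0 := by
    rintro rfl
    simp at hy
    linarith
  have hs : r⁻¹ < 1 := inv_lt_one_of_one_lt₀ hr
  have h1 : ∀ z : ℂ, r ≤ ‖z‖ → ‖z⁻¹‖ ≤ r⁻¹ := by
    intro z hz
    rw [norm_inv]
    exact inv_anti₀ hr0 hz
  have h2 : ∀ z : ℂ, z ≠ 0 → phi (toDisc c (fun z => ψ z - z)) z⁻¹ = ψ z := by
    intro z hz
    simp only [phi, toDisc]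
    rw [if_neg (inv_ne_zero hz), inv_inv]
    ring
  have h3 := phi_sub_ge he (inv_ne_zero hy0) (inv_ne_zero hx0) hs (h1 y hy) (h1 x hx)
  have h4 := phi_sub_le he (inv_ne_zero hy0) (inv_ne_zero hx0) hs (h1 y hy) (h1 x hx)
  rw [h2 x hx0, h2 y hy0, inv_inv, inv_inv, inv_pow] at h3 h4
  exact ⟨h3, h4⟩

end

end Pool.Agent.Helper77.CK
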